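import Mathlib

/-!
Elements of a group with the relations of transpositions: the product along a star has the order of
a cycle.
-/

namespace Pool.Agent.KS6_39.CZ

variable {G : Type*} [Group G]

/-- the relations between transpositions of `{0, ..., m-1}` -/
structure Trans (τ : ℕ → ℕ → G) (m : ℕ) : Prop where
  symm : ∀ i j, τ i j = τ j i
  sq : ∀ i j, i < m → j < m → i ≠ j → τ i j * τ i j = 1
  conj1 : ∀ i j l, i < m → j < m → l < m → i ≠ j → i ≠ l → j ≠ l →
    τ i j * τ i l * (τ i j)⁻¹ = τ j l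
  conj2 : ∀ i j k l, i < m → j < m → k < m → l < m → i ≠ j → k ≠ l → k ≠ i → k ≠ j → l ≠ i →
    l ≠ j → τ i j * τ k l * (τ i j)⁻¹ = τ k l

/-- the cycle on `{0, ..., k}` -/
def cyc (τ : ℕ → ℕ → G) : ℕ → G
  | 0 => 1
  | k + 1 => τ 0 (k + 1) * cyc τ k

/-- a family of elements which is permuted by the transpositions of `{0, ..., N-1}` -/
structure Permuted (τ : ℕ → ℕ → G) (N : ℕ) (Y : ℕ → G) : Prop where
  swap : ∀ i j, i < N → j < N → i ≠ j → τ i j * Y i * (τ i j)⁻¹ = Y j
  fix : ∀ i j l, i < N → j < N → l < N → i ≠ j → l ≠ i → l ≠ j → τ i j * Y l * (τ i j)⁻¹ = Y l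

theorem cyc_conj {τ : ℕ → ℕ → G} (hs : ∀ i j, τ i j = τ j i) {N : ℕ} {Y : ℕ → G}
    (hY : Permuted τ N Y) (k : ℕ) (hk : k < N) :
    (∀ i, i < k → cyc τ k * Y i * (cyc τ k)⁻¹ = Y (i + 1)) ∧
    (cyc τ k * Y k * (cyc τ k)⁻¹ = Y 0) ∧
    (∀ i, k < i → i < N → cyc τ k * Y i * (cyc τ k)⁻¹ = Y i) := by
  induction k with
  | zero => refine ⟨fun i hi => absurd hi (Nat.not_lt_zero _), ?_, fun i _ _ => ?_⟩ <;> simp [cyc]
  | succ k ih =>
    obtain ⟨h1, h2, h3⟩ := ih (by omega)
    have key : ∀ g : G, cyc τ (k + 1) * g * (cyc τ (k + 1))⁻¹ =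
        τ 0 (k + 1) * (cyc τ k * g * (cyc τ k)⁻¹) * (τ 0 (k + 1))⁻¹ := by
      intro g; simp only [cyc]; group
    refine ⟨?_, ?_, ?_⟩
    · intro i hi
      rw [key]
      by_cases hik : i < k
      · rw [h1 i hik]
        exact hY.fix 0 (k + 1) (i + 1) (by omega) hk (by omega) (by omega) (by omega) (by omega)
      · have : i = k := by omega
        subst this
        rw [h2]
        exact hY.swap 0 (i + 1) (by omega) hk (by omega)
    · rw [key, h3 (k + 1) (by omega) hk, hs 0 (k + 1)]
      exact hY.swap (k + 1) 0 hk (by omega) (by omega)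
    · intro i hi hiN
      rw [key, h3 i (by omega) hiN]
      exact hY.fix 0 (k + 1) i (by omega) hk hiN (by omega) (by omega) (by omega)

/-- products of an initial segment -/
def seg (Y : ℕ → G) : ℕ → G
  | 0 => 1
  | j + 1 => seg Y j * Y j

/-- reversed products -/
def rseg (Y : ℕ → G) : ℕ → G
  | 0 => Y 0
  | j + 1 => Y (j + 1) * rseg Y j

theorem seg_mul_rseg {Y : ℕ → G} (j : ℕ) (hY : ∀ i, i ≤ j → Y i * Y i = 1) :
    seg Y (j + 1) * rseg Y j = 1 := by
  induction j with
  | zero => simp only [seg, rseg, one_mul]; exact hY 0 le_rfl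
  | succ j ih =>
    have := ih (fun i hi => hY i (by omega))
    have h1 : seg Y (j + 1 + 1) * rseg Y (j + 1) =
        seg Y (j + 1) * (Y (j + 1) * Y (j + 1)) * rseg Y j := by
      simp only [seg, rseg]; group
    rw [h1, hY (j + 1) le_rfl, mul_one, this]

/-- powers of `Y 0 * c` if `c` shifts the family `Y` -/
theorem pow_seg {Y : ℕ → G} {c : G} {n : ℕ} (hc : ∀ i, i < n → c * Y i * c⁻¹ = Y (i + 1)) (j : ℕ)
    (hj : j ≤ n + 1) : (Y 0 * c) ^ j = seg Y j * c ^ j := by
  have h1 : ∀ i, i ≤ n → c ^ i * Y 0 = Y i * c ^ i := by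
    intro i
    induction i with
    | zero => intro _; simp
    | succ i ih =>
      intro hi
      have := hc i (by omega)
      have e1 : c * Y i = Y (i + 1) * c := by rw [← this]; group
      calc c ^ (i + 1) * Y 0 = c * (c ^ i * Y 0) := by rw [pow_succ']; group
        _ = c * (Y i * c ^ i) := by rw [ih (by omega)]
        _ = (c * Y i) * c ^ i := by group
        _ = Y (i + 1) * c * c ^ i := by rw [e1]
        _ = Y (i + 1) * c ^ (i + 1) := by rw [pow_succ']; group
  induction j with
  | zero => simp [seg]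
  | succ j ih =>
    rw [pow_succ, ih (by omega)]
    calc seg Y j * c ^ j * (Y 0 * c) = seg Y j * (c ^ j * Y 0) * c := by group
      _ = seg Y j * (Y j * c ^ j) * c := by rw [h1 j (by omega)]
      _ = seg Y (j + 1) * c ^ (j + 1) := by simp only [seg, pow_succ]; group

theorem cyc_pow {τ : ℕ → ℕ → G} {m : ℕ} (h : Trans τ m) (k : ℕ) (hk : k < m) :
    cyc τ k ^ (k + 1) = 1 := by
  induction k with
  | zero => simp [cyc]
  | succ k ih =>
    have hP : Permuted τ (k + 1) (fun i => τ i (k + 1)) := by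
      constructor
      · intro i j hi hj hij
        exact h.conj1 i j (k + 1) (by omega) (by omega) hk hij (by omega) (by omega)
      · intro i j l hi hj hl hij hli hlj
        exact h.conj2 i j l (k + 1) (by omega) (by omega) (by omega) hk hij (by omega) hli hlj
          (by omega) (by omega)
    obtain ⟨h1, -, -⟩ := cyc_conj h.symm hP k (by omega)
    have h2 := pow_seg (Y := fun i => τ i (k + 1)) (c := cyc τ k) (n := k) h1 (k + 1) le_rfl
    rw [ih (by omega), mul_one] at h2
    have h3 : ∀ j, j ≤ k → τ 0 (k + 1) * cyc τ j = rseg (fun i => τ i (k + 1)) j := by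
      intro j
      induction j with
      | zero => intro _; simp [cyc, rseg]
      | succ j ihj =>
        intro hj
        have e1 := h.conj1 0 (k + 1) (j + 1) (by omega) hk (by omega) (by omega) (by omega)
          (by omega)
        have e2 : τ 0 (k + 1) * τ 0 (j + 1) = τ (j + 1) (k + 1) * τ 0 (k + 1) := by
          rw [h.symm (j + 1) (k + 1), ← e1]; group
        simp only [cyc, rseg]
        rw [← ihj (by omega), ← mul_assoc, e2, mul_assoc]
    have h4 : cyc τ (k + 1) ^ (k + 1 + 1) =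
        seg (fun i => τ i (k + 1)) (k + 1) * rseg (fun i => τ i (k + 1)) k := by
      rw [pow_succ]
      simp only [cyc]
      rw [h2, h3 k le_rfl]
    rw [h4]
    exact seg_mul_rseg k (fun i hi => h.sq i (k + 1) (by omega) hk (by omega))

/-- the root: if `Y` is permuted by the transpositions, then the product of `Y 0, ..., Y (m-1)` is
an `m`-th power -/
theorem root_seg {τ : ℕ → ℕ → G} {m : ℕ} (h : Trans τ (m + 1)) {Y : ℕ → G}
    (hY : Permuted τ (m + 1) Y) : (Y 0 * cyc τ m) ^ (m + 1) = seg Y (m + 1) := by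
  obtain ⟨h1, -, -⟩ := cyc_conj h.symm hY m (by omega)
  rw [pow_seg (n := m) h1 (m + 1) le_rfl, cyc_pow h m (by omega), mul_one]

end Pool.Agent.KS6_39.CZ
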