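import Pool.Agent.KS6_39.CZ.Mat

/-!
Embedding of a finitely presented group.
-/

namespace Pool.Agent.KS6_39.CZ

open scoped commutatorElement

open X

section D

variable {Λ : Type*} [Ring Λ] (h2 : ∀ r : Λ, r + r = 0)

/-- the Weyl element -/
def wm (u : Λ) : GL5 Λ := tv h2 0 1 u * tv h2 1 0 u * tv h2 0 1 u

theorem wm_val {u : Λ} (hu : u * u = 1) : (wm h2 u : Matrix (Fin 5) (Fin 5) Λ) =
    !![0, u, 0, 0, 0; u, 0, 0, 0, 0; 0, 0, 1, 0, 0; 0, 0, 0, 1, 0; 0, 0, 0, 0, 1] := by
  rw [wm, Units.val_mul, Units.val_mul, tv_val h2 (by decide), tv_val h2 (by decide)]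
  ext i j
  fin_cases i <;> fin_cases j <;>
    simp [Matrix.mul_apply, Fin.sum_univ_five, Matrix.one_apply, Matrix.single_apply, hu, h2]

theorem wm_wm {u : Λ} (hu : u * u = 1) : (wm h2 u * wm h2 1 : Matrix (Fin 5) (Fin 5) Λ) =
    Matrix.diagonal ![u, u, 1, 1, 1] := by
  rw [wm_val h2 hu, wm_val h2 (by simp)]
  ext i j
  fin_cases i <;> fin_cases j <;>
    simp [Matrix.mul_apply, Fin.sum_univ_five]

end D

section Op

variable {S : Type*}

/-- the operator of a permutation of the states -/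
def op : Equiv.Perm S →* LL (ℕ × S) where
  toFun p := loc 1 (fun _ => 1) (fun c => (c.1, p⁻¹ c.2))
  map_one' := by simpa using loc_one 1
  map_mul' p q := by
    rw [loc_mul]
    congr 1

theorem op_injective : Function.Injective (op (S := S)) := by
  classical
  rw [injective_iff_map_eq_one]
  intro p hp
  ext s
  have h := congrArg (fun r => r (fun ω => if (ω 1).2 = s then 1 else 0) (fun _ => (0, p s))) hp
  have e1 : op p (fun ω => if (ω 1).2 = s then (1 : ZMod 2) else 0) (fun _ => (0, p s)) = 1 := by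
    change loc 1 (fun _ => 1) (fun c => (c.1, p⁻¹ c.2)) _ _ = _
    simp [loc]
  simp only [e1, Module.End.one_apply] at h
  by_contra hne
  rw [if_neg (show ¬ p s = s from hne)] at h
  exact one_ne_zero h

/-- the unit of a permutation -/
def opU (p : Equiv.Perm S) : (LL (ℕ × S))ˣ := Units.map op (toUnits p)

/-- diagonal matrices -/
def dg (p : Equiv.Perm S) : GL5 (LL (ℕ × S)) where
  val := Matrix.diagonal ![op p, op p, 1, 1, 1]
  inv := Matrix.diagonal ![op p⁻¹, op p⁻¹, 1, 1, 1]
  val_inv := by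
    rw [Matrix.diagonal_mul_diagonal, ← Matrix.diagonal_one]
    congr 1
    funext i
    fin_cases i <;> simp [← map_mul]
  inv_val := by
    rw [Matrix.diagonal_mul_diagonal, ← Matrix.diagonal_one]
    congr 1
    funext i
    fin_cases i <;> simp [← map_mul]

/-- the homomorphism to diagonal matrices -/
def dgh : Equiv.Perm S →* GL5 (LL (ℕ × S)) where
  toFun := dg
  map_one' := by
    apply Units.ext
    change Matrix.diagonal ![op 1, op 1, 1, 1, 1] = 1
    rw [← Matrix.diagonal_one]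
    congr 1
    funext i
    fin_cases i <;> simp
  map_mul' p q := by
    apply Units.ext
    rw [Units.val_mul]
    change Matrix.diagonal ![op (p * q), op (p * q), 1, 1, 1] =
      Matrix.diagonal ![op p, op p, 1, 1, 1] * Matrix.diagonal ![op q, op q, 1, 1, 1]
    rw [Matrix.diagonal_mul_diagonal]
    congr 1
    funext i
    fin_cases i <;> simp

theorem dgh_injective : Function.Injective (dgh (S := S)) := by
  intro p q h
  have h1 := congrArg (fun m : GL5 (LL (ℕ × S)) => m.val 0 0) h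
  change Matrix.diagonal ![op p, op p, 1, 1, 1] 0 0 = Matrix.diagonal ![op q, op q, 1, 1, 1] 0 0 at h1
  rw [Matrix.diagonal_apply_eq, Matrix.diagonal_apply_eq] at h1
  exact op_injective h1

variable {Z : Type} (ζ : Z → Equiv.Perm S)

/-- the Weyl element in the group -/
def ww (a : Option (X Z)) : GG Z := ee 0 1 a * ee 1 0 a * ee 0 1 a

theorem pi_ww (a : Option (X Z)) : pi (ww a) = 1 := by
  rw [ww, map_mul, map_mul, pi_ee, pi_ee]; simp

theorem mm_ww (a : Option (X Z)) : mm ζ (ww a) = wm LL_char2 (vO (val ζ) a) := by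
  rw [ww, map_mul, map_mul, mm_ee, mm_ee]; rfl

theorem mm_dd {i : Z} (hi : ζ i * ζ i = 1) : mm ζ (ww (some (z i)) * ww none) = dgh (ζ i) := by
  rw [map_mul, mm_ww, mm_ww]
  have hinv : (ζ i)⁻¹ = ζ i := inv_eq_of_mul_eq_one_left hi
  have e1 : vO (val ζ) (some (z i)) = op (ζ i) := by
    change loc 1 (fun _ => 1) (fun c => (c.1, ζ i c.2)) = loc 1 (fun _ => 1) (fun c => (c.1, (ζ i)⁻¹ c.2))
    rw [hinv]
  have e2 : vO (val ζ) (none : Option (X Z)) = 1 := rfl
  apply Units.ext
  rw [Units.val_mul, e1, e2, wm_wm LL_char2 (by rw [← map_mul, hi, map_one])]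
  rfl

end Op

section Inv

/-- the left multiplication by an element is a product of two involutions -/
theorem two_inv {H : Type*} [Group H] (h : H) :
    ∃ σ τ : Equiv.Perm H, σ * σ = 1 ∧ τ * τ = 1 ∧ ∀ g, (τ * σ) g = h * g := by
  obtain ⟨r, hr1, hr2⟩ : ∃ r : H → H, (∀ g, g * (r g)⁻¹ ∈ Subgroup.zpowers h) ∧
      ∀ g g', g' * g⁻¹ ∈ Subgroup.zpowers h → r g' = r g := by
    refine ⟨fun g => (Quotient.mk (QuotientGroup.rightRel (Subgroup.zpowers h)) g).out, ?_, ?_⟩
    · intro g
      have h1 : QuotientGroup.rightRel (Subgroup.zpowers h)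
          (Quotient.mk (QuotientGroup.rightRel (Subgroup.zpowers h)) g).out g := Quotient.mk_out g
      rw [QuotientGroup.rightRel_apply] at h1
      exact h1
    · intro g g' hg
      have : Quotient.mk (QuotientGroup.rightRel (Subgroup.zpowers h)) g' =
          Quotient.mk (QuotientGroup.rightRel (Subgroup.zpowers h)) g := by
        symm
        apply Quotient.sound
        change QuotientGroup.rightRel (Subgroup.zpowers h) g g'
        rw [QuotientGroup.rightRel_apply]; exact hg
      simp only [this]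
  have hs : ∀ g, r (r g * g⁻¹ * r g) = r g := by
    intro g
    apply hr2
    have : r g * g⁻¹ * r g * g⁻¹ = (g * (r g)⁻¹)⁻¹ * (g * (r g)⁻¹)⁻¹ := by group
    rw [this]
    exact Subgroup.mul_mem _ (Subgroup.inv_mem _ (hr1 g)) (Subgroup.inv_mem _ (hr1 g))
  have hh : ∀ g, r (h * g) = r g := by
    intro g
    apply hr2
    rw [mul_inv_cancel_right]; exact Subgroup.mem_zpowers h
  have hs2 : ∀ g, r (r g * g⁻¹ * r g) * (r g * g⁻¹ * r g)⁻¹ * r (r g * g⁻¹ * r g) = g := by
    intro g
    rw [hs]; group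
  have hc : ∀ g, h * (g * (r g)⁻¹) = (g * (r g)⁻¹) * h := by
    intro g
    obtain ⟨k, hk⟩ := Subgroup.mem_zpowers_iff.mp (hr1 g)
    rw [← hk]
    exact (Commute.refl h).zpow_right k
  have ht2 : ∀ g, h * (r (h * (r g * g⁻¹ * r g)) * (h * (r g * g⁻¹ * r g))⁻¹ *
      r (h * (r g * g⁻¹ * r g))) = g := by
    intro g
    rw [hh, hs]
    calc h * (r g * (h * (r g * g⁻¹ * r g))⁻¹ * r g) = (h * (g * (r g)⁻¹)) * h⁻¹ * r g := by group
      _ = g := by rw [hc]; group
  let σ : Equiv.Perm H := ⟨fun g => r g * g⁻¹ * r g, fun g => r g * g⁻¹ * r g, hs2, hs2⟩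
  let τ : Equiv.Perm H := ⟨fun g => h * (r g * g⁻¹ * r g), fun g => h * (r g * g⁻¹ * r g), ht2, ht2⟩
  refine ⟨σ, τ, ?_, ?_, ?_⟩
  · ext g; exact hs2 g
  · ext g; exact ht2 g
  · intro g
    change h * (r (r g * g⁻¹ * r g) * (r g * g⁻¹ * r g)⁻¹ * r (r g * g⁻¹ * r g)) = h * g
    rw [hs2]

end Inv

section Final

universe u

/-- the image of a generator -/
def dl {n : ℕ} (i : Fin n) : GG (Fin n × Bool) :=
  (ww (some (z (i, true))) * ww none) * (ww (some (z (i, false))) * ww none)

/-- the map of the free group -/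
def De (n : ℕ) : FreeGroup (Fin n) →* GG (Fin n × Bool) := FreeGroup.lift dl

theorem pi_De {n : ℕ} (w : FreeGroup (Fin n)) : pi (De n w) = 1 := by
  have : pi.comp (De n) = 1 := by
    ext i
    simp [De, dl, pi_ww]
  exact DFunLike.congr_fun this w

theorem mm_De {H : Type u} [Group H] {n : ℕ} (φ : FreeGroup (Fin n) →* H) :
    ∃ ζ : Fin n × Bool → Equiv.Perm H, ∀ w, mm ζ (De n w) = dgh (MulAction.toPermHom H H (φ w)) := by
  choose σ τ h1 h2 h3 using fun i : Fin n => two_inv (φ (FreeGroup.of i))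
  let ζ : Fin n × Bool → Equiv.Perm H := fun p => if p.2 then τ p.1 else σ p.1
  refine ⟨ζ, fun w => ?_⟩
  have : (mm ζ).comp (De n) = dgh.comp ((MulAction.toPermHom H H).comp φ) := by
    ext1 i
    simp only [MonoidHom.comp_apply, De, FreeGroup.lift_apply_of, dl]
    rw [map_mul, mm_dd ζ (i := (i, true)) (by simpa [ζ] using h2 i),
      mm_dd ζ (i := (i, false)) (by simpa [ζ] using h1 i), ← map_mul]
    congr 1
    ext g
    exact h3 i g
  exact DFunLike.congr_fun this w

end Final

end Pool.Agent.KS6_39.CZ
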