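import Pool.Agent.KS6_39.CZ.Main1

/-!
The finitely presented group.
-/

namespace Pool.Agent.KS6_39.CZ

open scoped commutatorElement

/-- the letters: generators of the ring; `Z` is a type of additional letters -/
inductive X (Z : Type) | a0 | a1 | b0 | b1 | x | x' | y | y' | z (i : Z)

open X

variable {Z : Type}

instance [Finite Z] : Finite (X Z) := by
  let f : Fin 8 ⊕ Z → X Z := fun s => match s with
    | Sum.inr i => z i
    | Sum.inl k => ![a0, a1, b0, b1, x, x', y, y'] k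
  refine Finite.of_surjective f ?_
  intro g
  cases g with
  | a0 => exact ⟨Sum.inl 0, rfl⟩
  | a1 => exact ⟨Sum.inl 1, rfl⟩
  | b0 => exact ⟨Sum.inl 2, rfl⟩
  | b1 => exact ⟨Sum.inl 3, rfl⟩
  | x => exact ⟨Sum.inl 4, rfl⟩
  | x' => exact ⟨Sum.inl 5, rfl⟩
  | y => exact ⟨Sum.inl 6, rfl⟩
  | y' => exact ⟨Sum.inl 7, rfl⟩
  | z i => exact ⟨Sum.inr i, rfl⟩

/-- the endomorphism on the letters -/
def psi : X Z → List (X Z)
  | a0 => [x', a0, x]
  | a1 => [x', a1, x]
  | b0 => [x', b0, x]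
  | b1 => [x', b1, x]
  | x => [y]
  | x' => [y']
  | y => [x', y, x]
  | y' => [x', y', x]
  | z i => [x', z i, x]

/-- the four Leavitt letters -/
def isL : X Z → Prop
  | a0 => True
  | a1 => True
  | b0 => True
  | b1 => True
  | _ => False

/-- the relators of the ring: sums of words -/
def ringRels : Set (List (List (X Z))) :=
  {[[b0, a0], []], [[b1, a1], []], [[b0, a1]], [[b1, a0]], [[a0, b0], [a1, b1], []],
    [[x, x'], []], [[x', x], []], [[y, y'], []], [[y', y], []]} ∪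
  {ρ | ∃ l g, isL l ∧ ρ = [l :: psi g, psi g ++ [l]]}

theorem ringRels_finite [Finite Z] : (ringRels (Z := Z)).Finite := by
  refine Set.Finite.union (by simp) ?_
  refine Set.Finite.subset (Set.finite_range (fun p : X Z × X Z => [p.1 :: psi p.2, psi p.2 ++ [p.1]])) ?_
  rintro ρ ⟨l, g, -, rfl⟩
  exact ⟨(l, g), rfl⟩

theorem big5 : Big (Fin 5) := by
  unfold Big; decide

/-- choice of a third index -/
noncomputable def q5 (i j : Fin 5) : Fin 5 := (big5 i j j j).choose

theorem pick5 : Pick q5 := fun i j =>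
  ⟨(big5 i j j j).choose_spec.1, (big5 i j j j).choose_spec.2.1⟩

/-- the generators of the group -/
abbrev Gen (Z : Type) := Option (Fin 5 × Fin 5 × Option (X Z))

/-- the elementary generators -/
def eF (i j : Fin 5) (a : Option (X Z)) : FreeGroup (Gen Z) := FreeGroup.of (some (i, j, a))

/-- the stable letter -/
def tF : FreeGroup (Gen Z) := FreeGroup.of none

/-- the defining relators -/
inductive Rel {Z : Type} : FreeGroup (Gen Z) → Prop
  | diag (i) (a : Option (X Z)) : Rel (eF i i a)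
  | comm (i j k l) (a b : Option (X Z)) : i ≠ j → k ≠ l → j ≠ k → i ≠ l → Rel ⁅eF i j a, eF k l b⁆
  | mulr (i j k) (a : Option (X Z)) : i ≠ j → j ≠ k → i ≠ k → 
      Rel (⁅eF i j a, (eF j k none : FreeGroup (Gen Z))⁆ * (eF i k a)⁻¹)
  | mull (i j k) (a : Option (X Z)) : i ≠ j → j ≠ k → i ≠ k → 
      Rel (⁅(eF i j none : FreeGroup (Gen Z)), eF j k a⁆ * (eF i k a)⁻¹)
  | sq (i j) (a : Option (X Z)) : i ≠ j → Rel (eF i j a * eF i j a)
  | ring (i j) (ρ : List (List (X Z))) : i ≠ j → ρ ∈ ringRels → Rel (ρ.map (fun w => E eF q5 w i j)).prod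
  | t1 (i j) : i ≠ j → Rel (tF * eF i j none * tF⁻¹ * (eF i j none)⁻¹)
  | tg (i j) (g : X Z) : i ≠ j → Rel (tF * eF i j (some g) * tF⁻¹ * (E eF q5 (psi g) i j)⁻¹)

/-- the set of the defining relators -/
def rels : Set (FreeGroup (Gen Z)) := {w | Rel w}

theorem rels_finite [Finite Z] : (rels (Z := Z)).Finite := by
  have f1 : (Set.range (fun p : Fin 5 × Fin 5 × Fin 5 × Fin 5 × Option (X Z) × Option (X Z) =>
      ⁅eF p.1 p.2.1 p.2.2.2.2.1, eF p.2.2.1 p.2.2.2.1 p.2.2.2.2.2⁆)).Finite := Set.finite_range _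
  have f2 : (Set.range (fun p : Fin 5 × Fin 5 × Fin 5 × Option (X Z) =>
      ⁅eF p.1 p.2.1 p.2.2.2, (eF p.2.1 p.2.2.1 none : FreeGroup (Gen Z))⁆ * (eF p.1 p.2.2.1 p.2.2.2)⁻¹)).Finite :=
    Set.finite_range _
  have f3 : (Set.range (fun p : Fin 5 × Fin 5 × Fin 5 × Option (X Z) =>
      ⁅(eF p.1 p.2.1 none : FreeGroup (Gen Z)), eF p.2.1 p.2.2.1 p.2.2.2⁆ * (eF p.1 p.2.2.1 p.2.2.2)⁻¹)).Finite :=
    Set.finite_range _
  have f4 : (Set.range (fun p : Fin 5 × Fin 5 × Option (X Z) =>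
      eF p.1 p.2.1 p.2.2 * eF p.1 p.2.1 p.2.2)).Finite := Set.finite_range _
  have f5 : ((fun p : (Fin 5 × Fin 5) × List (List (X Z)) =>
      (p.2.map (fun w => E eF q5 w p.1.1 p.1.2)).prod) '' (Set.univ ×ˢ ringRels)).Finite :=
    Set.Finite.image _ (Set.Finite.prod Set.finite_univ ringRels_finite)
  have f6 : (Set.range (fun p : Fin 5 × Fin 5 =>
      (tF : FreeGroup (Gen Z)) * eF p.1 p.2 none * tF⁻¹ * (eF p.1 p.2 none)⁻¹)).Finite := Set.finite_range _
  have f7 : (Set.range (fun p : Fin 5 × Fin 5 × X Z =>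
      tF * eF p.1 p.2.1 (some p.2.2) * tF⁻¹ * (E eF q5 (psi p.2.2) p.1 p.2.1)⁻¹)).Finite :=
    Set.finite_range _
  have f0 : (Set.range (fun p : Fin 5 × Option (X Z) => eF p.1 p.1 p.2)).Finite := Set.finite_range _
  refine Set.Finite.subset
    (f0.union (f1.union (f2.union (f3.union (f4.union (f5.union (f6.union f7))))))) ?_
  rintro w (⟨i, a⟩ | ⟨i, j, k, l, a, b, -, -, -, -⟩ | ⟨i, j, k, a, -, -, -⟩ | ⟨i, j, k, a, -, -, -⟩ |
    ⟨i, j, a, -⟩ | ⟨i, j, ρ, -, hρ⟩ | ⟨i, j, -⟩ | ⟨i, j, g, -⟩)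
  · exact Or.inl ⟨(i, a), rfl⟩
  · exact Or.inr (Or.inl ⟨(i, j, k, l, a, b), rfl⟩)
  · exact Or.inr (Or.inr (Or.inl ⟨(i, j, k, a), rfl⟩))
  · exact Or.inr (Or.inr (Or.inr (Or.inl ⟨(i, j, k, a), rfl⟩)))
  · exact Or.inr (Or.inr (Or.inr (Or.inr (Or.inl ⟨(i, j, a), rfl⟩))))
  · exact Or.inr (Or.inr (Or.inr (Or.inr (Or.inr (Or.inl
      ⟨((i, j), ρ), ⟨Set.mem_univ _, hρ⟩, rfl⟩)))))
  · exact Or.inr (Or.inr (Or.inr (Or.inr (Or.inr (Or.inr (Or.inl ⟨(i, j), rfl⟩))))))
  · exact Or.inr (Or.inr (Or.inr (Or.inr (Or.inr (Or.inr (Or.inr ⟨(i, j, g), rfl⟩))))))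

/-- the group -/
abbrev GG (Z : Type) : Type := PresentedGroup (rels (Z := Z))

instance [Finite Z] : Group.IsFinitelyPresented (GG Z) := by
  have : Finite (rels (Z := Z)) := rels_finite
  infer_instance

/-- the map to the group -/
def mkG : FreeGroup (Gen Z) →* GG Z := PresentedGroup.mk rels

theorem mkG_rel {w : FreeGroup (Gen Z)} (h : Rel w) : mkG w = 1 :=
  PresentedGroup.one_of_mem h

/-- elementary elements -/
def ee (i j : Fin 5) (a : Option (X Z)) : GG Z := mkG (eF i j a)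

/-- the stable letter -/
def tt : GG Z := mkG tF

theorem mkG_E (w : List (X Z)) (i j : Fin 5) : mkG (E eF q5 w i j) = E ee q5 w i j := by
  rw [E_map]; rfl

theorem ee_diag (i : Fin 5) (a : Option (X Z)) : ee i i a = 1 := mkG_rel (Rel.diag i a)

theorem base_ee : Base (ee (Z := Z)) where
  comm := by
    intro i j k l a b h1 h2 h3 h4
    have := mkG_rel (Rel.comm i j k l a b h1 h2 h3 h4)
    rw [map_commutatorElement, commutatorElement_eq_one_iff_commute] at this
    exact this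
  mulr := by
    intro i j k a h1 h2 h3
    have := mkG_rel (Rel.mulr i j k a h1 h2 h3)
    rw [map_mul, map_commutatorElement, map_inv, mul_inv_eq_one] at this
    exact this
  mull := by
    intro i j k a h1 h2 h3
    have := mkG_rel (Rel.mull i j k a h1 h2 h3)
    rw [map_mul, map_commutatorElement, map_inv, mul_inv_eq_one] at this
    exact this
  sq := by
    intro i j a h1
    have := mkG_rel (Rel.sq i j a h1)
    rw [map_mul] at this
    exact this

theorem ring_ee {i j : Fin 5} (hij : i ≠ j) {ρ : List (List (X Z))} (hρ : ρ ∈ ringRels) :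
    (ρ.map (fun w => E ee q5 w i j)).prod = 1 := by
  have := mkG_rel (Rel.ring i j ρ hij hρ)
  rw [map_list_prod, List.map_map] at this
  rw [← this]
  congr 1
  apply List.map_congr_left
  intro w _
  exact (mkG_E w i j).symm

theorem t1_ee {i j : Fin 5} (hij : i ≠ j) : (tt : GG Z) * ee i j none * tt⁻¹ = ee i j none := by
  have := mkG_rel (Rel.t1 (Z := Z) i j hij)
  rw [map_mul, map_mul, map_mul, map_inv, map_inv, mul_inv_eq_one] at this
  exact this

theorem tg_ee {i j : Fin 5} (hij : i ≠ j) (g : X Z) :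
    tt * ee i j (some g) * tt⁻¹ = E ee q5 (psi g) i j := by
  have := mkG_rel (Rel.tg i j g hij)
  rw [map_mul, map_mul, map_mul, map_inv, map_inv, mul_inv_eq_one, mkG_E] at this
  exact this

theorem t_word {i j : Fin 5} (hij : i ≠ j) (w : List (X Z)) :
    tt * E ee q5 w i j * tt⁻¹ = E ee q5 (w.flatMap psi) i j := by
  induction w generalizing i j with
  | nil => exact t1_ee hij
  | cons g w ih =>
    have hp := pick5 i j
    have e1 : tt * E ee q5 (g :: w) i j * tt⁻¹ =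
        ⁅tt * ee i (q5 i j) (some g) * tt⁻¹, tt * E ee q5 w (q5 i j) j * tt⁻¹⁆ := by
      simp only [E, commutatorElement_def]; group
    rw [e1, ih hp.2, tg_ee hp.1.symm, List.flatMap_cons]
    exact E_mul base_ee pick5 big5 _ _ hp.1.symm hp.2 hij

end Pool.Agent.KS6_39.CZ
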