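import Pool.Agent.KS6_39.CZ.Roots

/-!
Roots of block scalar elements in a group with Steinberg relations in characteristic two.
-/

namespace Pool.Agent.KS6_39.CZ

open scoped commutatorElement

variable {ι R G : Type*} [Ring R] [Group G] {e : ι → ι → R → G} [Fintype ι]

/-- the lift of the scalar matrix `1 + v * w` -/
noncomputable def T (hι : Big ι) (e : ι → ι → R → G) (v w : R) : G :=
  TL hι e v w Finset.univ.toList

section

variable (he : St e) (h2 : ∀ r : R, r + r = 0) (hι : Big ι)
include he h2

theorem T_conj {v w : R} (hwv : w * v = 0) {k l : ι} (hkl : k ≠ l) (r : R) :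
    T hι e v w * e k l r * (T hι e v w)⁻¹ = e k l ((1 + v * w) * r * (1 + v * w)) := by
  have := TL_conj hι he h2 hwv (Finset.univ.toList) (Finset.nodup_toList _) hkl r
  simpa [T] using this

theorem T_sq {v w : R} (hwv : w * v = 0) : T hι e v w * T hι e v w = 1 :=
  TL_sq hι he h2 hwv _ (Finset.nodup_toList _)

omit he in
theorem s_sq {v w : R} (hwv : w * v = 0) : (1 + v * w) * (1 + v * w) = 1 := by
  have e1 : v * w * (v * w) = 0 := by
    rw [mul_assoc, ← mul_assoc w v w, hwv]; simp
  calc (1 + v * w) * (1 + v * w) = 1 + (v * w + v * w) + v * w * (v * w) := by noncomm_ring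
    _ = 1 := by rw [e1, h2]; simp

theorem T_T {v w v' w' : R} (hwv : w * v = 0) (hwv' : w' * v' = 0) :
    T hι e v' w' * T hι e v w * (T hι e v' w')⁻¹ =
      T hι e ((1 + v' * w') * v) (w * (1 + v' * w')) := by
  set s := 1 + v' * w' with hs
  have hss : s * s = 1 := s_sq h2 hwv'
  have hz : w * s * (s * v) = 0 := by
    rw [mul_assoc, ← mul_assoc s s v, hss, one_mul, hwv]
  have key : ∀ p : ι, T hι e v' w' * D hι e p v w * (T hι e v' w')⁻¹ =
      D hι e p (s * v) (w * s) := by
    intro p
    have h1 : T hι e v' w' * D hι e p v w * (T hι e v' w')⁻¹ =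
        ⁅T hι e v' w' * e p (other hι p) v * (T hι e v' w')⁻¹,
          T hι e v' w' * e (other hι p) p w * (T hι e v' w')⁻¹⁆ := by
      simp only [D, Dq, commutatorElement_def]; group
    rw [h1, T_conj he h2 hι hwv' (other_ne hι p), T_conj he h2 hι hwv' (other_ne hι p).symm,
      ← hs]
    have h3 := D_unit he h2 hι p hz hwv'
    rw [← hs] at h3
    rw [← h3]
    simp only [D, Dq, mul_assoc]
  unfold T TL at key ⊢
  generalize (List.map (fun p => D hι e p v' w') Finset.univ.toList).prod = t at key ⊢
  induction (Finset.univ : Finset ι).toList with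
  | nil => simp
  | cons p L ih =>
    simp only [List.map_cons, List.prod_cons]
    rw [← ih, ← key p]; group

end

section Family

variable {a b : ℕ → R} {m : ℕ}

/-- orthonormal families -/
def ON (a b : ℕ → R) (m : ℕ) : Prop :=
  ∀ i j, i < m → j < m → b i * a j = if i = j then 1 else 0

variable (he : St e) (h2 : ∀ r : R, r + r = 0) (hι : Big ι) (hab : ON a b m)

include h2 hab

omit [Fintype ι] in
theorem ON_zero {i j : ℕ} (hi : i < m) (hj : j < m) (hij : i ≠ j) :
    (b i + b j) * (a i + a j) = 0 := by
  have e1 := hab i i hi hi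
  have e2 := hab i j hi hj
  have e3 := hab j i hj hi
  have e4 := hab j j hj hj
  simp only [if_true, hij, hij.symm, if_false] at e1 e2 e3 e4
  rw [add_mul, mul_add, mul_add, e1, e2, e3, e4]
  simp [h2]

/-- the permutation unit -/
def sw (a b : ℕ → R) (i j : ℕ) : R := 1 + (a i + a j) * (b i + b j)

omit [Fintype ι] in
theorem sw_a {i j : ℕ} (hi : i < m) (hj : j < m) (hij : i ≠ j) : sw a b i j * a i = a j := by
  have e1 := hab i i hi hi
  have e3 := hab j i hj hi
  simp only [if_true, hij.symm, if_false] at e1 e3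
  rw [sw, add_mul, mul_assoc, add_mul (b i), e1, e3, add_zero, mul_one, one_mul, ← add_assoc, h2,
    zero_add]

omit [Fintype ι] in
theorem sw_b {i j : ℕ} (hi : i < m) (hj : j < m) (hij : i ≠ j) : b i * sw a b i j = b j := by
  have e1 := hab i i hi hi
  have e3 := hab i j hi hj
  simp only [if_true, hij, if_false] at e1 e3
  rw [sw, mul_add, ← mul_assoc, mul_add (b i), e1, e3, add_zero, mul_one, one_mul, ← add_assoc, h2,
    zero_add]

omit [Fintype ι] h2 in
theorem sw_a' {i j k : ℕ} (hi : i < m) (hj : j < m) (hk : k < m) (hki : k ≠ i) (hkj : k ≠ j) :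
    sw a b i j * a k = a k := by
  have e1 := hab i k hi hk
  have e3 := hab j k hj hk
  simp only [hki.symm, hkj.symm, if_false] at e1 e3
  rw [sw, add_mul, mul_assoc, add_mul (b i), e1, e3]
  simp

omit [Fintype ι] h2 in
theorem sw_b' {i j k : ℕ} (hi : i < m) (hj : j < m) (hk : k < m) (hki : k ≠ i) (hkj : k ≠ j) :
    b k * sw a b i j = b k := by
  have e1 := hab k i hk hi
  have e3 := hab k j hk hj
  simp only [hki, hkj, if_false] at e1 e3
  rw [sw, mul_add, ← mul_assoc, mul_add (b k), e1, e3]
  simp

omit [Fintype ι] h2 hab in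
theorem sw_symm (i j : ℕ) : sw a b i j = sw a b j i := by
  rw [sw, sw, add_comm (a i), add_comm (b i)]

/-- the lift of a transposition -/
noncomputable def tau (hι : Big ι) (e : ι → ι → R → G) (a b : ℕ → R) (i j : ℕ) : G :=
  T hι e (a i + a j) (b i + b j)

include he

theorem tau_conj {i j : ℕ} (hi : i < m) (hj : j < m) (hij : i ≠ j) {k l : ι} (hkl : k ≠ l)
    (r : R) : tau hι e a b i j * e k l r * (tau hι e a b i j)⁻¹ =
      e k l (sw a b i j * r * sw a b i j) :=
  T_conj he h2 hι (ON_zero h2 hab hi hj hij) hkl r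

theorem tau_trans : Trans (tau hι e a b) m where
  symm := by
    intro i j
    simp only [tau]
    rw [add_comm (a i), add_comm (b i)]
  sq := by
    intro i j hi hj hij
    exact T_sq he h2 hι (ON_zero h2 hab hi hj hij)
  conj1 := by
    intro i j l hi hj hl hij hil hjl
    have h := T_T he h2 hι (ON_zero h2 hab hi hl hil) (ON_zero h2 hab hi hj hij)
    have e1 : sw a b i j * (a i + a l) = a j + a l := by
      rw [mul_add, sw_a h2 hab hi hj hij, sw_a' hab hi hj hl hil.symm hjl.symm]
    have e2 : (b i + b l) * sw a b i j = b j + b l := by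
      rw [add_mul, sw_b h2 hab hi hj hij, sw_b' hab hi hj hl hil.symm hjl.symm]
    change tau hι e a b i j * tau hι e a b i l * (tau hι e a b i j)⁻¹ =
      T hι e (sw a b i j * (a i + a l)) ((b i + b l) * sw a b i j) at h
    rw [h, e1, e2]; rfl
  conj2 := by
    intro i j k l hi hj hk hl hij hkl hki hkj hli hlj
    have h := T_T he h2 hι (ON_zero h2 hab hk hl hkl) (ON_zero h2 hab hi hj hij)
    have e1 : sw a b i j * (a k + a l) = a k + a l := by
      rw [mul_add, sw_a' hab hi hj hk hki hkj, sw_a' hab hi hj hl hli hlj]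
    have e2 : (b k + b l) * sw a b i j = b k + b l := by
      rw [add_mul, sw_b' hab hi hj hk hki hkj, sw_b' hab hi hj hl hli hlj]
    change tau hι e a b i j * tau hι e a b k l * (tau hι e a b i j)⁻¹ =
      T hι e (sw a b i j * (a k + a l)) ((b k + b l) * sw a b i j) at h
    rw [h, e1, e2]; rfl

/-- the block version of a word in the group -/
def blk (e : ι → ι → R → G) (a b : ℕ → R) (l : List (ι × ι × R)) (i : ℕ) : G :=
  (l.map (fun x => e x.1 x.2.1 (a i * x.2.2 * b i))).prod

theorem blk_permuted (l : List (ι × ι × R)) (hl : ∀ x ∈ l, x.1 ≠ x.2.1) :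
    Permuted (tau hι e a b) m (blk e a b l) := by
  have key : ∀ (t : G) (i k : ℕ), (∀ x ∈ l, t * e x.1 x.2.1 (a i * x.2.2 * b i) * t⁻¹ =
      e x.1 x.2.1 (a k * x.2.2 * b k)) → t * blk e a b l i * t⁻¹ = blk e a b l k := by
    intro t i k h
    clear hl
    induction l with
    | nil => simp [blk]
    | cons x l ih =>
      have h1 := ih (fun y hy => h y (List.mem_cons_of_mem _ hy))
      have h3 := h x List.mem_cons_self
      simp only [blk, List.map_cons, List.prod_cons] at h1 ⊢
      rw [← h1, ← h3]; group
  constructor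
  · intro i j hi hj hij
    apply key
    intro x hx
    rw [tau_conj he h2 hι hab hi hj hij (hl x hx)]
    congr 1
    calc sw a b i j * (a i * x.2.2 * b i) * sw a b i j =
        (sw a b i j * a i) * x.2.2 * (b i * sw a b i j) := by noncomm_ring
      _ = _ := by rw [sw_a h2 hab hi hj hij, sw_b h2 hab hi hj hij]
  · intro i j k hi hj hk hij hki hkj
    apply key
    intro x hx
    rw [tau_conj he h2 hι hab hi hj hij (hl x hx)]
    congr 1
    calc sw a b i j * (a k * x.2.2 * b k) * sw a b i j =
        (sw a b i j * a k) * x.2.2 * (b k * sw a b i j) := by noncomm_ring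
      _ = _ := by rw [sw_a' hab hi hj hk hki hkj, sw_b' hab hi hj hk hki hkj]

omit h2 in
omit [Fintype ι] in
theorem blk_comm_single (hι : Big ι) {i j : ℕ} (hi : i < m) (hj : j < m) (hij : i ≠ j)
    {p q p' q' : ι} (hpq : p ≠ q) (hpq' : p' ≠ q') (c c' : R) :
    Commute (e p q (a i * c * b i)) (e p' q' (a j * c' * b j)) := by
  have z1 : ∀ i j : ℕ, i < m → j < m → i ≠ j → ∀ c c' : R,
      (a i * c * b i) * (a j * c' * b j) = 0 := by
    intro i j hi hj hij c c'
    have := hab i j hi hj
    simp only [hij, if_false] at this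
    calc (a i * c * b i) * (a j * c' * b j) = a i * c * (b i * a j) * (c' * b j) := by
          noncomm_ring
      _ = 0 := by rw [this]; simp
  by_cases h3 : q = p'
  · subst h3
    by_cases h4 : p = q'
    · subst h4
      obtain ⟨k, k1, k2, -, -⟩ := hι p q q q
      have e1 : e q p (a j * c' * b j) = ⁅e q k (a j), e k p (c' * b j)⁆ := by
        rw [he.mul q k p _ _ k2.symm k1 hpq.symm, mul_assoc]
      rw [e1]
      have w1 := hab i j hi hj
      have w2 := hab j i hj hi
      simp only [hij, hij.symm, if_false] at w1 w2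
      refine Commute.commutator ?_ ?_
      · refine he.comm0 hpq k2.symm k1.symm ?_
        rw [mul_assoc, w1, mul_zero]
      · refine (he.comm0 k1 hpq k2 ?_).symm
        rw [mul_assoc, ← mul_assoc (b j), ← mul_assoc (b j), w2]; simp
    · exact he.comm0 hpq hpq' h4 (z1 i j hi hj hij c c')
  · by_cases h4 : p = q'
    · subst h4
      exact (he.comm0 hpq' hpq (Ne.symm h3) (z1 j i hj hi hij.symm c' c)).symm
    · exact he.comm p q p' q' _ _ hpq hpq' h3 h4

omit h2 in
omit [Fintype ι] in
theorem blk_comm (hι : Big ι) {i j : ℕ} (hi : i < m) (hj : j < m) (hij : i ≠ j)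
    (l l' : List (ι × ι × R)) (hl : ∀ x ∈ l, x.1 ≠ x.2.1) (hl' : ∀ x ∈ l', x.1 ≠ x.2.1) :
    Commute (blk e a b l i) (blk e a b l' j) := by
  induction l with
  | nil => simp [blk]
  | cons x l ih =>
    have e1 : blk e a b (x :: l) i = e x.1 x.2.1 (a i * x.2.2 * b i) * blk e a b l i := by
      simp [blk]
    rw [e1]
    refine Commute.mul_left ?_ (ih (fun y hy => hl y (List.mem_cons_of_mem _ hy)))
    have hx := hl x List.mem_cons_self
    clear ih e1
    induction l' with
    | nil => simp [blk]
    | cons y l' ih' =>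
      have e1 : blk e a b (y :: l') j = e y.1 y.2.1 (a j * y.2.2 * b j) * blk e a b l' j := by
        simp [blk]
      rw [e1]
      exact Commute.mul_right (blk_comm_single he hab hι hi hj hij hx (hl' y List.mem_cons_self) _ _)
        (ih' (fun z hz => hl' z (List.mem_cons_of_mem _ hz)))

omit h2 in
omit [Fintype ι] in
theorem seg_blk (hι : Big ι) (l : List (ι × ι × R))
    (hl : ∀ x ∈ l, x.1 ≠ x.2.1) (k : ℕ) (hk : k ≤ m) :
    seg (blk e a b l) k =
      (l.map (fun x => e x.1 x.2.1 (∑ i ∈ Finset.range k, a i * x.2.2 * b i))).prod := by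
  have step : ∀ (x : ι × ι × R) (l : List (ι × ι × R)), (∀ y ∈ x :: l, y.1 ≠ y.2.1) →
      ∀ k, k ≤ m → seg (blk e a b (x :: l)) k = seg (blk e a b [x]) k * seg (blk e a b l) k := by
    intro x l hl k
    induction k with
    | zero => intro _; simp [seg]
    | succ k ih =>
      intro hk
      have hc : ∀ j, j ≤ k → Commute (blk e a b [x] k) (seg (blk e a b l) j) := by
        intro j
        induction j with
        | zero => intro _; simp [seg]
        | succ j ihj =>
          intro hj
          simp only [seg]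
          refine (ihj (by omega)).mul_right ?_
          exact blk_comm he hab hι (by omega) (by omega) (by omega) [x] l
            (by intro y hy; rw [List.mem_singleton] at hy; rw [hy]; exact hl x List.mem_cons_self)
            (fun y hy => hl y (List.mem_cons_of_mem _ hy))
      have e1 : blk e a b (x :: l) k = blk e a b [x] k * blk e a b l k := by
        simp [blk]
      simp only [seg]
      rw [ih (by omega), e1]
      calc seg (blk e a b [x]) k * seg (blk e a b l) k * (blk e a b [x] k * blk e a b l k) =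
          seg (blk e a b [x]) k * (seg (blk e a b l) k * blk e a b [x] k) * blk e a b l k := by
            group
        _ = seg (blk e a b [x]) k * (blk e a b [x] k * seg (blk e a b l) k) * blk e a b l k := by
            rw [(hc k le_rfl).eq]
        _ = _ := by group
  have single : ∀ x : ι × ι × R, x.1 ≠ x.2.1 → ∀ k, seg (blk e a b [x]) k =
      e x.1 x.2.1 (∑ i ∈ Finset.range k, a i * x.2.2 * b i) := by
    intro x hx k
    induction k with
    | zero => simp [seg, he.zero hx]
    | succ k ih =>
      simp only [seg]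
      rw [ih, Finset.sum_range_succ, he.add _ _ _ _ hx]
      simp [blk]
  induction l with
  | nil =>
    have : ∀ k, seg (blk e a b ([] : List (ι × ι × R))) k = 1 := by
      intro k
      induction k with
      | zero => rfl
      | succ k ih => simp only [seg]; rw [ih]; simp [blk]
    simp [this]
  | cons x l ih =>
    rw [step x l hl k hk, single x (hl x List.mem_cons_self), ih (fun y hy =>
      hl y (List.mem_cons_of_mem _ hy))]
    simp

end Family

/-- **Roots.** -/
theorem root (he : St e) (h2 : ∀ r : R, r + r = 0) (hι : Big ι) {a b : ℕ → R} {m : ℕ}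
    (hab : ON a b (m + 1)) (hsum : ∑ i ∈ Finset.range (m + 1), a i * b i = 1)
    (l : List (ι × ι × R)) (hl : ∀ x ∈ l, x.1 ≠ x.2.1)
    (hc : ∀ x ∈ l, ∀ i, i < m + 1 → Commute (b i) x.2.2) :
    ∃ h : G, h ^ (m + 1) = (l.map (fun x => e x.1 x.2.1 x.2.2)).prod := by
  refine ⟨blk e a b l 0 * cyc (tau hι e a b) m, ?_⟩
  rw [root_seg (tau_trans he h2 hι hab) (blk_permuted he h2 hι hab l hl),
    seg_blk he hab hι l hl (m + 1) le_rfl]
  congr 1
  apply List.map_congr_left
  intro x hx
  congr 1
  have : ∀ i ∈ Finset.range (m + 1), a i * x.2.2 * b i = a i * b i * x.2.2 := by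
    intro i hi
    rw [mul_assoc, ← (hc x hx i (Finset.mem_range.mp hi)).eq, mul_assoc]
  rw [Finset.sum_congr rfl this, ← Finset.sum_mul, hsum, one_mul]

end Pool.Agent.KS6_39.CZ
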