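import Pool.Agent.KS6_39.CZ.Model

/-!
Elementary matrices over a ring of characteristic two, and the map of the group to matrices.
-/

namespace Pool.Agent.KS6_39.CZ

open scoped commutatorElement

open X

section Mat

variable {Λ : Type*} [Ring Λ]

/-- the general linear group -/
abbrev GL5 (Λ : Type*) [Ring Λ] := (Matrix (Fin 5) (Fin 5) Λ)ˣ

theorem single_sq (h2 : ∀ r : Λ, r + r = 0) {i j : Fin 5} (h : i ≠ j) (r : Λ) :
    (1 + Matrix.single i j r) * (1 + Matrix.single i j r) = 1 := by
  have e1 : Matrix.single i j r * Matrix.single i j r = 0 := by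
    rw [Matrix.single_mul_single_of_ne _ _ _ _ h.symm]
  have e2 : Matrix.single i j r + Matrix.single i j r = 0 := by
    rw [← Matrix.single_add, h2, Matrix.single_zero]
  rw [mul_add, add_mul, add_mul, e1, mul_one, one_mul, mul_one, add_zero, add_assoc, e2, add_zero]

/-- the elementary matrix -/
def tv (h2 : ∀ r : Λ, r + r = 0) (i j : Fin 5) (r : Λ) : GL5 Λ :=
  if h : i ≠ j then ⟨1 + Matrix.single i j r, 1 + Matrix.single i j r, single_sq h2 h r,
    single_sq h2 h r⟩ else 1

variable (h2 : ∀ r : Λ, r + r = 0)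

theorem tv_val {i j : Fin 5} (h : i ≠ j) (r : Λ) :
    (tv h2 i j r : Matrix (Fin 5) (Fin 5) Λ) = 1 + Matrix.single i j r := by
  rw [tv, dif_pos h]

theorem tv_inv_val {i j : Fin 5} (h : i ≠ j) (r : Λ) :
    (((tv h2 i j r)⁻¹ : GL5 Λ) : Matrix (Fin 5) (Fin 5) Λ) = 1 + Matrix.single i j r := by
  rw [tv, dif_pos h]; rfl

theorem tv_diag (i : Fin 5) (r : Λ) : tv h2 i i r = 1 := by
  rw [tv, dif_neg (by simp)]

theorem tv_inv {i j : Fin 5} (h : i ≠ j) (r : Λ) : (tv h2 i j r)⁻¹ = tv h2 i j r := by
  apply Units.ext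
  rw [tv_inv_val h2 h, tv_val h2 h]

theorem tv_St : St (tv h2) where
  add := by
    intro i j r s h
    apply Units.ext
    rw [Units.val_mul, tv_val h2 h, tv_val h2 h, tv_val h2 h, Matrix.single_add]
    have e1 : Matrix.single i j r * Matrix.single i j s = 0 := by
      rw [Matrix.single_mul_single_of_ne _ _ _ _ h.symm]
    rw [mul_add, add_mul 1 (Matrix.single i j r) (Matrix.single i j s), e1, mul_one, one_mul,
      add_zero, add_assoc]
  comm := by
    intro i j k l r s h1 h3 h4 h5
    change _ * _ = _ * _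
    apply Units.ext
    rw [Units.val_mul, Units.val_mul, tv_val h2 h1, tv_val h2 h3]
    have e1 : Matrix.single i j r * Matrix.single k l s = 0 := by
      rw [Matrix.single_mul_single_of_ne _ _ _ _ h4]
    have e2 : Matrix.single k l s * Matrix.single i j r = 0 := by
      rw [Matrix.single_mul_single_of_ne _ _ _ _ h5.symm]
    have : ∀ a b : Matrix (Fin 5) (Fin 5) Λ, (1 + a) * (1 + b) = 1 + (a + b) + a * b := by
      intro a b
      noncomm_ring
    rw [this, this, e1, e2, add_comm (Matrix.single i j r)]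
  mul := by
    intro i j k r s h1 h3 h4
    rw [commutatorElement_def, tv_inv h2 h1, tv_inv h2 h3]
    apply Units.ext
    simp only [Units.val_mul]
    rw [tv_val h2 h1, tv_val h2 h3, tv_val h2 h4]
    have a2 : ∀ a : Matrix (Fin 5) (Fin 5) Λ, a + a = 0 := by
      intro a
      ext i j
      exact h2 _
    have e1 : Matrix.single i j r * Matrix.single j k s = Matrix.single i k (r * s) := by
      rw [Matrix.single_mul_single_same]
    have e2 : Matrix.single j k s * Matrix.single i j r = 0 := by
      rw [Matrix.single_mul_single_of_ne _ _ _ _ h4.symm]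
    have e3 : Matrix.single i j r * Matrix.single i j r = 0 := by
      rw [Matrix.single_mul_single_of_ne _ _ _ _ h1.symm]
    have e4 : Matrix.single j k s * Matrix.single j k s = 0 := by
      rw [Matrix.single_mul_single_of_ne _ _ _ _ h3.symm]
    rw [← e1]
    have : ∀ a b : Matrix (Fin 5) (Fin 5) Λ, (1 + a) * (1 + b) * (1 + a) * (1 + b) =
        1 + a * b + (a + a) + (b + b) + (a * b + a * b) + a * a + a * a * b + b * a + b * b
          + b * a * b + a * (b * a) + a * (b * b) + a * (b * a) * b := by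
      intro a b
      noncomm_ring
    rw [this, a2, a2, a2, e2, e3, e4]
    simp

theorem St_sum {G : Type*} [Group G] {e : Fin 5 → Fin 5 → Λ → G} (he : St e) {i j : Fin 5} (hij : i ≠ j)
    (l : List Λ) : e i j l.sum = (l.map (e i j)).prod := by
  induction l with
  | nil => simpa using he.zero hij
  | cons r l ih => rw [List.sum_cons, he.add i j _ _ hij, ih, List.map_cons, List.prod_cons]

/-- values of letters or the unit -/
def vO {Z : Type} (v : X Z → Λ) : Option (X Z) → Λ
  | none => 1
  | some g => v g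

theorem E_val {Z : Type} {G : Type*} [Group G] {e : Fin 5 → Fin 5 → Λ → G} (he : St e) (v : X Z → Λ)
    {i j : Fin 5} (hij : i ≠ j) (w : List (X Z)) :
    E (fun i j a => e i j (vO v a)) q5 w i j = e i j (w.map v).prod := by
  induction w generalizing i j with
  | nil => rfl
  | cons g w ih =>
    have hp := pick5 i j
    simp only [E]
    rw [ih hp.2, he.mul _ _ _ _ _ hp.1.symm hp.2 hij]
    simp [vO]

end Mat

section Hom

variable {S : Type*} {Z : Type} (ζ : Z → Equiv.Perm S)

/-- the unit given by a permutation of the places -/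
def prmU (p : Equiv.Perm ℚ) : (LL S)ˣ := ⟨prm p, prm p⁻¹, prm_mul_inv p, prm_inv_mul p⟩

/-- the matrix of the stable letter -/
def TT : GL5 (LL S) := Units.map (Matrix.scalar (Fin 5)).toMonoidHom (prmU T0)

/-- the values of the generators -/
def genVal : Gen Z → GL5 (LL (ℕ × S))
  | none => TT
  | some (i, j, a) => tv LL_char2 i j (vO (val ζ) a)

theorem lift_EF (w : List (X Z)) {i j : Fin 5} (hij : i ≠ j) :
    FreeGroup.lift (genVal ζ) (E eF q5 w i j) = tv LL_char2 i j (wval ζ w) := by
  rw [E_map]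
  have : (fun i j a => FreeGroup.lift (genVal ζ) (eF i j a)) =
      (fun i j a => tv LL_char2 i j (vO (val ζ) a)) := by
    funext i j a
    simp [eF, genVal]
  rw [this, E_val (tv_St LL_char2) _ hij]
  rfl

theorem TT_conj {i j : Fin 5} (hij : i ≠ j) (r : LL (ℕ × S)) :
    TT * tv LL_char2 i j r * TT⁻¹ = tv LL_char2 i j (prm T0 * r * prm T0⁻¹) := by
  apply Units.ext
  rw [Units.val_mul, Units.val_mul, tv_val _ hij, tv_val _ hij]
  have e1 : ((TT : GL5 (LL (ℕ × S))) : Matrix (Fin 5) (Fin 5) (LL (ℕ × S))) =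
      Matrix.scalar (Fin 5) (prm T0) := rfl
  have e2 : ((TT⁻¹ : GL5 (LL (ℕ × S))) : Matrix (Fin 5) (Fin 5) (LL (ℕ × S))) =
      Matrix.scalar (Fin 5) (prm T0⁻¹) := rfl
  have e3 : Matrix.scalar (Fin 5) (prm T0) * Matrix.single i j r * Matrix.scalar (Fin 5) (prm T0⁻¹)
      = Matrix.single i j (prm T0 * r * prm T0⁻¹) := by
    rw [Matrix.scalar_apply, Matrix.scalar_apply]
    ext k l
    rw [Matrix.mul_diagonal, Matrix.diagonal_mul]
    by_cases h : i = k ∧ j = l
    · rw [Matrix.single_apply, Matrix.single_apply, if_pos h, if_pos h]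
    · rw [Matrix.single_apply, Matrix.single_apply, if_neg h, if_neg h]; simp
  have e4 : Matrix.scalar (Fin 5) (prm (S := ℕ × S) T0) * Matrix.scalar (Fin 5) (prm T0⁻¹) = 1 := by
    rw [← map_mul, prm_mul_inv, map_one]
  rw [e1, e2, mul_add, add_mul, e3, mul_one, e4]

theorem rel_val (w : FreeGroup (Gen Z)) (hw : w ∈ rels) : FreeGroup.lift (genVal ζ) w = 1 := by
  have he := tv_St (Λ := LL (ℕ × S)) LL_char2
  cases hw with
  | diag i a => simp [eF, genVal, tv_diag]
  | comm i j k l a b h1 h2 h3 h4 =>
    rw [map_commutatorElement, commutatorElement_eq_one_iff_commute]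
    simpa [eF, genVal] using he.comm i j k l _ _ h1 h2 h3 h4
  | mulr i j k a h1 h2 h3 =>
    rw [map_mul, map_commutatorElement, map_inv, mul_inv_eq_one]
    have := he.mul i j k (vO (val ζ) a) 1 h1 h2 h3
    simpa [eF, genVal, vO] using this
  | mull i j k a h1 h2 h3 =>
    rw [map_mul, map_commutatorElement, map_inv, mul_inv_eq_one]
    have := he.mul i j k 1 (vO (val ζ) a) h1 h2 h3
    simpa [eF, genVal, vO] using this
  | sq i j a h1 =>
    rw [map_mul]
    have := he.sq LL_char2 h1 (vO (val ζ) a)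
    simpa [eF, genVal] using this
  | ring i j ρ h1 hρ =>
    rw [map_list_prod, List.map_map]
    have e1 : (⇑(FreeGroup.lift (genVal ζ)) ∘ fun w => E eF q5 w i j) =
        fun w => tv LL_char2 i j (wval ζ w) := by
      funext w
      exact lift_EF ζ w h1
    rw [e1]
    have := St_sum he h1 (ρ.map (wval ζ))
    rw [List.map_map] at this
    change (List.map ((tv LL_char2 i j) ∘ (wval ζ)) ρ).prod = 1
    rw [← this, ring_val ζ hρ, he.zero h1]
  | t1 i j h1 =>
    have := TT_conj h1 (1 : LL (ℕ × S))
    rw [mul_one, prm_mul_inv] at this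
    simp only [map_mul, map_inv, eF, tF, FreeGroup.lift_apply_of, genVal, vO]
    rw [this, mul_inv_cancel]
  | tg i j g h1 =>
    have := TT_conj h1 (val ζ g)
    rw [← wval_psi] at this
    simp only [map_mul, map_inv, lift_EF ζ _ h1]
    simp only [eF, tF, FreeGroup.lift_apply_of, genVal, vO]
    rw [this, mul_inv_cancel]

/-- the map of the group to matrices -/
def mm : GG Z →* GL5 (LL (ℕ × S)) := PresentedGroup.toGroup (f := genVal ζ) (rel_val ζ)

theorem mm_ee (i j : Fin 5) (a : Option (X Z)) : mm ζ (ee i j a) = tv LL_char2 i j (vO (val ζ) a) := by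
  change mm ζ (PresentedGroup.of _) = _
  rw [mm, PresentedGroup.toGroup.of]; rfl

end Hom

end Pool.Agent.KS6_39.CZ
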