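import Pool.Agent.KS6_39.CZ.Struct

/-!
A model of the relations: matrices over the endomorphism ring of the space of functions on the
configurations `ℚ → S`.
-/

namespace Pool.Agent.KS6_39.CZ

open scoped commutatorElement

open X

section Ops

variable {S : Type*}

/-- the space of functions on the configurations -/
abbrev VV (S : Type*) := (ℚ → S) → ZMod 2

/-- the ring of operators -/
abbrev LL (S : Type*) := Module.End (ZMod 2) (VV S)

/-- a local operator at the place `s` -/
def loc (s : ℚ) (χ : S → ZMod 2) (f : S → S) : LL S where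
  toFun φ ω := χ (ω s) * φ (Function.update ω s (f (ω s)))
  map_add' φ φ' := by funext ω; simp [mul_add]
  map_smul' c φ := by funext ω; simp; ring

/-- the operator of a permutation of the places -/
def prm (p : Equiv.Perm ℚ) : LL S where
  toFun φ ω := φ (ω ∘ p)
  map_add' φ φ' := by funext ω; simp
  map_smul' c φ := by funext ω; simp

theorem loc_mul (s : ℚ) (χ η : S → ZMod 2) (f g : S → S) :
    loc s χ f * loc s η g = loc s (fun c => χ c * η (f c)) (fun c => g (f c)) := by
  apply LinearMap.ext; intro φ; funext ω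
  simp [loc, Module.End.mul_apply, mul_assoc]

theorem loc_comm {s s' : ℚ} (h : s ≠ s') (χ η : S → ZMod 2) (f g : S → S) :
    Commute (loc s χ f) (loc s' η g) := by
  apply LinearMap.ext; intro φ; funext ω
  simp only [loc, Module.End.mul_apply, LinearMap.coe_mk, AddHom.coe_mk]
  rw [Function.update_of_ne h.symm, Function.update_of_ne h, Function.update_comm h]
  ring

theorem loc_one (s : ℚ) : loc s (fun _ => 1) (fun c : S => c) = 1 := by
  apply LinearMap.ext; intro φ; funext ω
  simp [loc]

theorem prm_mul (p q : Equiv.Perm ℚ) : prm (S := S) p * prm q = prm (p * q) := by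
  apply LinearMap.ext; intro φ; funext ω
  rfl

theorem prm_one : prm (S := S) 1 = 1 := by
  apply LinearMap.ext; intro φ; funext ω
  rfl

theorem prm_loc (p : Equiv.Perm ℚ) (s : ℚ) (χ : S → ZMod 2) (f : S → S) :
    prm p * loc s χ f = loc (p s) χ f * prm p := by
  apply LinearMap.ext; intro φ; funext ω
  simp only [loc, prm, Module.End.mul_apply, LinearMap.coe_mk, AddHom.coe_mk]
  have : Function.update ω (p s) (f (ω (p s))) ∘ p = Function.update (ω ∘ p) s (f (ω (p s))) := by
    funext r
    by_cases hr : r = s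
    · subst hr; simp
    · simp [hr]
  rw [this]; rfl

theorem LL_char2 (r : LL S) : r + r = 0 := by
  apply LinearMap.ext; intro φ; funext ω
  change r φ ω + r φ ω = 0
  have : ∀ c : ZMod 2, c + c = 0 := by decide
  exact this _

/-- halving to the right of zero -/
def F0 : Equiv.Perm ℚ where
  toFun s := if s ≤ 0 then s else if s ≤ 1 then 2 * s else s + 1
  invFun s := if s ≤ 0 then s else if s ≤ 2 then s / 2 else s - 1
  left_inv s := by
    simp only
    split_ifs <;> linarith
  right_inv s := by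
    simp only
    split_ifs <;> linarith

/-- the translation -/
def T0 : Equiv.Perm ℚ where
  toFun s := s + 1
  invFun s := s - 1
  left_inv s := by simp
  right_inv s := by simp

/-- first permutation -/
def X0 : Equiv.Perm ℚ := F0⁻¹

/-- second permutation -/
def Y0 : Equiv.Perm ℚ := T0 * X0 * T0⁻¹

theorem T0_apply (s : ℚ) : T0 s = s + 1 := rfl

theorem T0_inv_apply (s : ℚ) : T0⁻¹ s = s - 1 := rfl

theorem F0_apply (s : ℚ) : F0 s = if s ≤ 0 then s else if s ≤ 1 then 2 * s else s + 1 := rfl

theorem key : T0 * Y0 * T0⁻¹ = X0⁻¹ * Y0 * X0 := by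
  have h : T0 * (T0 * F0 * T0⁻¹) * T0⁻¹ * F0 = F0 * (T0 * F0 * T0⁻¹) := by
    ext s
    simp only [Equiv.Perm.mul_apply, T0_inv_apply, T0_apply, F0_apply]
    split_ifs <;> linarith
  have h2 : T0 * (T0 * F0 * T0⁻¹) * T0⁻¹ = F0 * (T0 * F0 * T0⁻¹) * F0⁻¹ := by
    rw [← h]; group
  have h3 : (T0 * (T0 * F0 * T0⁻¹) * T0⁻¹)⁻¹ = (F0 * (T0 * F0 * T0⁻¹) * F0⁻¹)⁻¹ := by rw [h2]
  have e1 : T0 * Y0 * T0⁻¹ = (T0 * (T0 * F0 * T0⁻¹) * T0⁻¹)⁻¹ := by
    unfold Y0 X0; simp only [mul_inv_rev, inv_inv, mul_assoc]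
  have e2 : X0⁻¹ * Y0 * X0 = (F0 * (T0 * F0 * T0⁻¹) * F0⁻¹)⁻¹ := by
    unfold Y0 X0; simp only [mul_inv_rev, inv_inv, mul_assoc]
  rw [e1, e2, h3]

theorem X0_one : X0⁻¹ 1 = 2 := by
  unfold X0
  rw [inv_inv, F0_apply]; norm_num

theorem Y0_one : Y0 1 = 1 := by
  have : Y0⁻¹ 1 = 1 := by
    unfold Y0 X0
    have e : (T0 * F0⁻¹ * T0⁻¹)⁻¹ = T0 * F0 * T0⁻¹ := by group
    rw [e]
    simp only [Equiv.Perm.mul_apply, T0_inv_apply, T0_apply, F0_apply]; norm_num
  rw [← this, ← Equiv.Perm.mul_apply, mul_inv_cancel, this]; rfl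

theorem XYX_one : (X0⁻¹ * Y0 * X0) 1 = 1 := by
  rw [← key]
  have : (T0 * Y0 * T0⁻¹)⁻¹ 1 = 1 := by
    unfold Y0 X0
    have e : (T0 * (T0 * F0⁻¹ * T0⁻¹) * T0⁻¹)⁻¹ = T0 * T0 * F0 * T0⁻¹ * T0⁻¹ := by
      simp only [mul_inv_rev, inv_inv, mul_assoc]
    rw [e]
    simp only [Equiv.Perm.mul_apply, T0_inv_apply, T0_apply, F0_apply]; norm_num
  rw [← this, ← Equiv.Perm.mul_apply, mul_inv_cancel, this]; rfl

/-- the values of the letters, `ζ i` are the permutations of the states for the additional letters -/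
def val {Z : Type} (ζ : Z → Equiv.Perm S) : X Z → LL (ℕ × S)
  | a0 => loc 1 (fun c => if c.1 % 2 = 0 then 1 else 0) (fun c => (c.1 / 2, c.2))
  | a1 => loc 1 (fun c => if c.1 % 2 = 1 then 1 else 0) (fun c => (c.1 / 2, c.2))
  | b0 => loc 1 (fun _ => 1) (fun c => (2 * c.1, c.2))
  | b1 => loc 1 (fun _ => 1) (fun c => (2 * c.1 + 1, c.2))
  | x => prm X0
  | x' => prm X0⁻¹
  | y => prm Y0
  | y' => prm Y0⁻¹
  | z i => loc 1 (fun _ => 1) (fun c => (c.1, ζ i c.2))

/-- the value of a word -/
def wval {Z : Type} (ζ : Z → Equiv.Perm S) (w : List (X Z)) : LL (ℕ × S) := (w.map (val ζ)).prod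

theorem wval_append {Z : Type} (ζ : Z → Equiv.Perm S) (w w' : List (X Z)) :
    wval ζ (w ++ w') = wval ζ w * wval ζ w' := by
  simp [wval]

/-- the letters which are local -/
theorem val_local {Z : Type} (ζ : Z → Equiv.Perm S) (l : X Z) (h : l ≠ x ∧ l ≠ x' ∧ l ≠ y ∧ l ≠ y') :
    ∃ χ f, val ζ l = loc 1 χ f := by
  cases l with
  | a0 => exact ⟨_, _, by rw [val]⟩
  | a1 => exact ⟨_, _, by rw [val]⟩
  | b0 => exact ⟨_, _, by rw [val]⟩
  | b1 => exact ⟨_, _, by rw [val]⟩
  | z i => exact ⟨_, _, by rw [val]⟩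
  | x => exact absurd rfl h.1
  | x' => exact absurd rfl h.2.1
  | y => exact absurd rfl h.2.2.1
  | y' => exact absurd rfl h.2.2.2

theorem prm_inv_mul (p : Equiv.Perm ℚ) : prm (S := S) p⁻¹ * prm p = 1 := by
  rw [prm_mul, inv_mul_cancel, prm_one]

theorem prm_mul_inv (p : Equiv.Perm ℚ) : prm (S := S) p * prm p⁻¹ = 1 := by
  rw [prm_mul, mul_inv_cancel, prm_one]

theorem prm_conj (p : Equiv.Perm ℚ) (s : ℚ) (χ : S → ZMod 2) (f : S → S) :
    prm p * loc s χ f * prm p⁻¹ = loc (p s) χ f := by
  rw [prm_loc, mul_assoc, prm_mul_inv, mul_one]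

/-- the values of `psi` -/
theorem wval_psi {Z : Type} (ζ : Z → Equiv.Perm S) (l : X Z) :
    wval ζ (psi l) = prm T0 * val ζ l * prm T0⁻¹ := by
  have h1 : ∀ χ (f : ℕ × S → ℕ × S), prm X0⁻¹ * (loc 1 χ f * prm X0) = prm T0 * loc 1 χ f * prm T0⁻¹ := by
    intro χ f
    have h := prm_conj X0⁻¹ 1 χ f
    rw [inv_inv] at h
    rw [← mul_assoc, h, prm_conj, X0_one, T0_apply]; norm_num
  cases l with
  | a0 => simp only [wval, psi, List.map_cons, List.map_nil, List.prod_cons, List.prod_nil, mul_one,
      val]; exact h1 _ _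
  | a1 => simp only [wval, psi, List.map_cons, List.map_nil, List.prod_cons, List.prod_nil, mul_one,
      val]; exact h1 _ _
  | b0 => simp only [wval, psi, List.map_cons, List.map_nil, List.prod_cons, List.prod_nil, mul_one,
      val]; exact h1 _ _
  | b1 => simp only [wval, psi, List.map_cons, List.map_nil, List.prod_cons, List.prod_nil, mul_one,
      val]; exact h1 _ _
  | z i => simp only [wval, psi, List.map_cons, List.map_nil, List.prod_cons, List.prod_nil, mul_one,
      val]; exact h1 _ _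
  | x =>
    simp only [wval, psi, List.map_cons, List.map_nil, List.prod_cons, List.prod_nil, mul_one, val,
      prm_mul]
    rfl
  | x' =>
    simp only [wval, psi, List.map_cons, List.map_nil, List.prod_cons, List.prod_nil, mul_one, val,
      prm_mul]
    congr 1
  | y =>
    simp only [wval, psi, List.map_cons, List.map_nil, List.prod_cons, List.prod_nil, mul_one, val,
      prm_mul]
    rw [← mul_assoc, ← key]
  | y' =>
    simp only [wval, psi, List.map_cons, List.map_nil, List.prod_cons, List.prod_nil, mul_one, val,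
      prm_mul]
    congr 1
    have := congrArg (fun p => p⁻¹) key
    simp only [mul_inv_rev, inv_inv, mul_assoc] at this
    simp only [mul_assoc]
    exact this.symm

theorem wval_comm {Z : Type} (ζ : Z → Equiv.Perm S) {l : X Z} (hl : isL l) (g : X Z) :
    Commute (val ζ l) (wval ζ (psi g)) := by
  obtain ⟨χ, f, h⟩ := val_local ζ l (by cases l <;> simp_all [isL])
  have hp : ∀ p : Equiv.Perm ℚ, p 1 = 1 → Commute (loc (S := ℕ × S) 1 χ f) (prm p) := by
    intro p hp
    have := prm_loc p 1 χ f
    rw [hp] at this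
    exact this.symm
  rw [h, wval_psi]
  by_cases hg : g ≠ x ∧ g ≠ x' ∧ g ≠ y ∧ g ≠ y'
  · obtain ⟨η, f', h'⟩ := val_local ζ g hg
    rw [h', prm_conj]
    apply loc_comm
    rw [T0_apply]; norm_num
  · have hT : ∀ p : Equiv.Perm ℚ, (T0 * p * T0⁻¹) 1 = 1 → (T0 * p⁻¹ * T0⁻¹) 1 = 1 := by
      intro p h
      have e : T0 * p⁻¹ * T0⁻¹ = (T0 * p * T0⁻¹)⁻¹ := by simp only [mul_inv_rev, inv_inv, mul_assoc]
      rw [e]
      conv_lhs => rw [← h]
      rw [← Equiv.Perm.mul_apply, inv_mul_cancel]; rfl
    have hx : (T0 * X0 * T0⁻¹) 1 = 1 := Y0_one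
    have hy : (T0 * Y0 * T0⁻¹) 1 = 1 := by rw [key]; exact XYX_one
    cases g with
    | x => simp only [val, prm_mul]; exact hp _ hx
    | x' => simp only [val, prm_mul]; exact hp _ (hT _ hx)
    | y => simp only [val, prm_mul]; exact hp _ hy
    | y' => simp only [val, prm_mul]; exact hp _ (hT _ hy)
    | _ => exact absurd (by simp) hg

theorem ring_val {Z : Type} (ζ : Z → Equiv.Perm S) {ρ : List (List (X Z))} (hρ : ρ ∈ ringRels) :
    (ρ.map (wval ζ)).sum = 0 := by
  rcases hρ with hρ | ⟨l, g, hl, rfl⟩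
  · simp only [Set.mem_insert_iff, Set.mem_singleton_iff] at hρ
    rcases hρ with rfl | rfl | rfl | rfl | rfl | rfl | rfl | rfl | rfl
    · simp only [wval, List.map_cons, List.map_nil, List.prod_cons, List.prod_nil, List.sum_cons,
        List.sum_nil, mul_one, add_zero, val, loc_mul]
      rw [← loc_one 1, ← LL_char2 (loc 1 (fun _ => 1) (fun c => c))]
      congr 2
      · funext c; simp
      · funext c; simp
    · simp only [wval, List.map_cons, List.map_nil, List.prod_cons, List.prod_nil, List.sum_cons,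
        List.sum_nil, mul_one, add_zero, val, loc_mul]
      rw [← loc_one 1, ← LL_char2 (loc 1 (fun _ => 1) (fun c => c))]
      congr 2
      · funext c
        have : (2 * c.1 + 1) % 2 = 1 := by omega
        simp [this]
      · funext c
        have : (2 * c.1 + 1) / 2 = c.1 := by omega
        simp [this]
    · simp only [wval, List.map_cons, List.map_nil, List.prod_cons, List.prod_nil, List.sum_cons,
        List.sum_nil, mul_one, add_zero, val, loc_mul]
      apply LinearMap.ext; intro φ; funext ω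
      simp [loc]
    · simp only [wval, List.map_cons, List.map_nil, List.prod_cons, List.prod_nil, List.sum_cons,
        List.sum_nil, mul_one, add_zero, val, loc_mul]
      apply LinearMap.ext; intro φ; funext ω
      simp [loc]
    · simp only [wval, List.map_cons, List.map_nil, List.prod_cons, List.prod_nil, List.sum_cons,
        List.sum_nil, mul_one, add_zero, val, loc_mul]
      apply LinearMap.ext; intro φ; funext ω
      simp only [LinearMap.add_apply, Pi.add_apply, loc, LinearMap.coe_mk, AddHom.coe_mk,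
        Module.End.one_apply, LinearMap.zero_apply, Pi.zero_apply]
      have h2 : ∀ c : ZMod 2, c + c = 0 := by decide
      rcases Nat.mod_two_eq_zero_or_one (ω 1).1 with h | h
      · have e : 2 * ((ω 1).1 / 2) = (ω 1).1 := by omega
        simp [h, e, h2]
      · have e : 2 * ((ω 1).1 / 2) + 1 = (ω 1).1 := by omega
        simp [h, e, h2]
    · simp only [wval, List.map_cons, List.map_nil, List.prod_cons, List.prod_nil, List.sum_cons,
        List.sum_nil, mul_one, add_zero, val, prm_mul_inv, LL_char2]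
    · simp only [wval, List.map_cons, List.map_nil, List.prod_cons, List.prod_nil, List.sum_cons,
        List.sum_nil, mul_one, add_zero, val, prm_inv_mul, LL_char2]
    · simp only [wval, List.map_cons, List.map_nil, List.prod_cons, List.prod_nil, List.sum_cons,
        List.sum_nil, mul_one, add_zero, val, prm_mul_inv, LL_char2]
    · simp only [wval, List.map_cons, List.map_nil, List.prod_cons, List.prod_nil, List.sum_cons,
        List.sum_nil, mul_one, add_zero, val, prm_inv_mul, LL_char2]
  · have h1 : wval ζ (l :: psi g) = val ζ l * wval ζ (psi g) := by simp [wval]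
    have h2 : wval ζ (psi g ++ [l]) = wval ζ (psi g) * val ζ l := by simp [wval]
    simp only [List.map_cons, List.map_nil, List.sum_cons, List.sum_nil, add_zero]
    rw [h1, h2, (wval_comm ζ hl g).eq, LL_char2]

end Ops

end Pool.Agent.KS6_39.CZ
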