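import Pool.Agent.KS6_39.CZ.Words

/-!
From the words to the free algebra over `ZMod 2`, and to the quotient ring by the elements which
act trivially.
-/

namespace Pool.Agent.KS6_39.CZ

open scoped commutatorElement

/-- a family of elements with the Steinberg relations over a ring -/
structure St {ι R G : Type*} [Ring R] [Group G] (e : ι → ι → R → G) : Prop where
  add : ∀ i j r s, i ≠ j → e i j (r + s) = e i j r * e i j s
  comm : ∀ i j k l r s, i ≠ j → k ≠ l → j ≠ k → i ≠ l → Commute (e i j r) (e k l s)
  mul : ∀ i j k r s, i ≠ j → j ≠ k → i ≠ k → ⁅e i j r, e j k s⁆ = e i k (r * s)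

theorem exists_lift {W G : Type*} [Group G] (f : W → G) (hc : ∀ w w', Commute (f w) (f w'))
    (hs : ∀ w, f w * f w = 1) :
    ∃ F : (W →₀ ZMod 2) → G, (∀ r s, F (r + s) = F r * F s) ∧
      (∀ w, F (Finsupp.single w 1) = f w) := by
  have hcm := Subgroup.isMulCommutative_closure (k := Set.range f)
    (by rintro _ ⟨w, rfl⟩ _ ⟨w', rfl⟩; exact hc w w')
  let inst : CommGroup (Subgroup.closure (Set.range f)) := IsMulCommutative.instCommGroup
  let f' : W → Additive (Subgroup.closure (Set.range f)) :=
    fun w => Additive.ofMul ⟨f w, Subgroup.subset_closure ⟨w, rfl⟩⟩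
  have hf' : ∀ w, (2 : ℕ) • f' w = 0 := by
    intro w
    rw [two_nsmul]
    apply Additive.toMul.injective
    apply Subtype.ext
    exact hs w
  let g : W → (ZMod 2 →+ Additive (Subgroup.closure (Set.range f))) := fun w =>
    ZMod.lift 2 ⟨zmultiplesHom _ (f' w), by
      change ((2 : ℕ) : ℤ) • f' w = 0
      rw [natCast_zsmul]; exact hf' w⟩
  let F := Finsupp.liftAddHom g
  refine ⟨fun r => ((Additive.toMul (F r) : Subgroup.closure (Set.range f)) : G), ?_, ?_⟩
  · intro r s
    simp only [map_add, toMul_add, Subgroup.coe_mul]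
  · intro w
    have h1 : F (Finsupp.single w 1) = f' w := by
      simp only [F, Finsupp.liftAddHom_apply_single]
      have : g w ((1 : ℤ) : ZMod 2) = f' w := by
        simp only [g, ZMod.lift_coe]
        simp
      simpa using this
    simp only [h1, f', toMul_ofMul]

variable {ι X G : Type*} [Group G]

/-- the free algebra over `ZMod 2` -/
abbrev FA (X : Type*) := MonoidAlgebra (ZMod 2) (FreeMonoid X)

/-- a word as an element of the free algebra -/
noncomputable def wd (w : List X) : FA X := MonoidAlgebra.of (ZMod 2) (FreeMonoid X) (FreeMonoid.ofList w)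

theorem wd_nil : (wd ([] : List X)) = 1 := by
  simp only [wd]; exact map_one _

theorem wd_append (w w' : List X) : wd (w ++ w') = wd w * wd w' := by
  simp only [wd, FreeMonoid.ofList_append, map_mul]

theorem FA_ind {P : FA X → Prop} (h0 : P 0) (ha : ∀ a b, P a → P b → P (a + b))
    (h1 : ∀ w : List X, P (wd w)) (a : FA X) : P a := by
  have key : ∀ b : FreeMonoid X →₀ ZMod 2, P (MonoidAlgebra.ofCoeff b) := by
    intro b
    induction b using Finsupp.induction_linear with
    | zero => exact h0
    | add f g hf hg => exact ha _ _ hf hg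
    | single w c =>
      have hc : c = 0 ∨ c = 1 := by
        revert c; decide
      rcases hc with rfl | rfl
      · rw [Finsupp.single_zero]; exact h0
      · exact h1 (FreeMonoid.toList w)
  exact key a.coeff

theorem exists_FA {e : ι → ι → Option X → G} {q : ι → ι → ι} (he : Base e) (hq : Pick q)
    (hι : Big ι) :
    ∃ f : ι → ι → FA X → G, St f ∧ ∀ i j w, i ≠ j → f i j (wd w) = E e q w i j := by
  have h : ∀ i j : ι, ∃ F : (FreeMonoid X →₀ ZMod 2) → G, i ≠ j →
      (∀ r s, F (r + s) = F r * F s) ∧
      (∀ w : List X, F (Finsupp.single (FreeMonoid.ofList w) 1) = E e q w i j) := by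
    intro i j
    by_cases hij : i = j
    · exact ⟨fun _ => 1, fun h => absurd hij h⟩
    · obtain ⟨F, h1, h2⟩ := exists_lift (fun w : FreeMonoid X => E e q (FreeMonoid.toList w) i j)
        (fun w w' => E_comm he hq hι _ _ hij hij (Ne.symm hij) hij)
        (fun w => E_sq he hq hι _ hij)
      exact ⟨F, fun _ => ⟨h1, fun w => h2 _⟩⟩
  choose F hF using h
  have hw : ∀ i j w, i ≠ j → F i j (wd w).coeff = E e q w i j := by
    intro i j w hij
    have : (wd w : FA X).coeff = Finsupp.single (FreeMonoid.ofList w) 1 := rfl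
    rw [this]; exact (hF i j hij).2 w
  have hadd : ∀ i j (r s : FA X), i ≠ j → F i j (r + s).coeff = F i j r.coeff * F i j s.coeff := by
    intro i j r s hij
    have : (r + s).coeff = r.coeff + s.coeff := rfl
    rw [this]; exact (hF i j hij).1 _ _
  have h0 : ∀ i j, i ≠ j → F i j (0 : FA X).coeff = 1 := by
    intro i j hij
    have := hadd i j 0 0 hij
    rw [add_zero] at this
    exact (mul_eq_left.mp this.symm)
  have hcomm : ∀ i j k l (r s : FA X), i ≠ j → k ≠ l → j ≠ k → i ≠ l →
      Commute (F i j r.coeff) (F k l s.coeff) := by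
    intro i j k l r s h1 h2 h3 h4
    induction r using FA_ind with
    | h0 => rw [h0 i j h1]; exact Commute.one_left _
    | ha a b iha ihb => rw [hadd i j a b h1]; exact iha.mul_left ihb
    | h1 w =>
      rw [hw i j w h1]
      induction s using FA_ind with
      | h0 => rw [h0 k l h2]; exact Commute.one_right _
      | ha a b iha ihb => rw [hadd k l a b h2]; exact iha.mul_right ihb
      | h1 w' => rw [hw k l w' h2]; exact E_comm he hq hι w w' h1 h2 h3 h4
  refine ⟨fun i j r => F i j r.coeff, ⟨hadd, hcomm, ?_⟩, hw⟩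
  intro i j k r s h1 h2 h3
  change ⁅F i j r.coeff, F j k s.coeff⁆ = F i k (r * s).coeff
  induction r using FA_ind with
  | h0 => rw [zero_mul, h0 i j h1, h0 i k h3]; simp
  | ha a b iha ihb =>
    rw [add_mul, hadd i k _ _ h3, ← iha, ← ihb, hadd i j a b h1]
    have c1 : Commute (F i j a.coeff) ⁅F i j b.coeff, F j k s.coeff⁆ := by
      rw [ihb]; exact hcomm i j i k a _ h1 h3 h1.symm h3
    have c2 : Commute ⁅F i j a.coeff, F j k s.coeff⁆ ⁅F i j b.coeff, F j k s.coeff⁆ := by
      rw [iha, ihb]; exact hcomm i k i k _ _ h3 h3 h3.symm h3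
    have e1 : ⁅F i j a.coeff * F i j b.coeff, F j k s.coeff⁆ =
        F i j a.coeff * ⁅F i j b.coeff, F j k s.coeff⁆ * (F i j a.coeff)⁻¹ *
          ⁅F i j a.coeff, F j k s.coeff⁆ := by
      simp only [commutatorElement_def]; group
    rw [e1, c1.eq, mul_inv_cancel_right, c2.eq]
  | h1 w =>
    induction s using FA_ind with
    | h0 => rw [mul_zero, h0 j k h2, h0 i k h3]; simp
    | ha a b iha ihb =>
      rw [mul_add, hadd i k _ _ h3, ← iha, ← ihb, hadd j k a b h2]
      have c1 : Commute (F j k a.coeff) ⁅F i j (wd w).coeff, F j k b.coeff⁆ := by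
        rw [ihb]; exact hcomm j k i k a _ h2 h3 h3.symm h2
      have e1 : ⁅F i j (wd w).coeff, F j k a.coeff * F j k b.coeff⁆ =
          ⁅F i j (wd w).coeff, F j k a.coeff⁆ * (F j k a.coeff *
            ⁅F i j (wd w).coeff, F j k b.coeff⁆ * (F j k a.coeff)⁻¹) := by
        simp only [commutatorElement_def]; group
      rw [e1, c1.eq, mul_inv_cancel_right]
    | h1 w' =>
      rw [hw i j w h1, hw j k w' h2, ← wd_append, hw i k _ h3]
      exact E_mul he hq hι w w' h1 h2 h3

section Quot

variable {A : Type*} [Ring A] {f : ι → ι → A → G}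

/-- the ring congruence: two elements act in the same way -/
def con (hf : St f) (hι : Big ι) : RingCon A where
  r a b := ∀ i j, i ≠ j → f i j a = f i j b
  iseqv := ⟨fun _ _ _ _ => rfl, fun h i j hij => (h i j hij).symm,
    fun h h' i j hij => (h i j hij).trans (h' i j hij)⟩
  mul' := by
    intro a b c d h h' i k hik
    obtain ⟨j, j1, j2, -, -⟩ := hι i k k k
    rw [← hf.mul i j k a c j1.symm j2 hik, ← hf.mul i j k b d j1.symm j2 hik,
      h i j j1.symm, h' j k j2]
  add' := by
    intro a b c d h h' i j hij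
    rw [hf.add i j _ _ hij, hf.add i j _ _ hij, h i j hij, h' i j hij]

/-- the action of the quotient ring -/
def bar (hf : St f) (hι : Big ι) [DecidableEq ι] (i j : ι) : (con hf hι).Quotient → G :=
  Quotient.lift (fun a => if i = j then 1 else f i j a) (by
    intro a b h
    by_cases hij : i = j
    · simp [hij]
    · simp only [hij, if_false]
      exact h i j hij)

theorem bar_mk (hf : St f) (hι : Big ι) [DecidableEq ι] {i j : ι} (hij : i ≠ j) (a : A) :
    bar hf hι i j ((con hf hι).mk' a) = f i j a := by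
  change (if i = j then 1 else f i j a) = _
  rw [if_neg hij]

theorem bar_St (hf : St f) (hι : Big ι) [DecidableEq ι] : St (bar hf hι) where
  add := by
    intro i j r s hij
    obtain ⟨a, rfl⟩ := RingCon.mk'_surjective (con hf hι) r
    obtain ⟨b, rfl⟩ := RingCon.mk'_surjective (con hf hι) s
    rw [← map_add, bar_mk hf hι hij, bar_mk hf hι hij, bar_mk hf hι hij, hf.add i j a b hij]
  comm := by
    intro i j k l r s h1 h2 h3 h4
    obtain ⟨a, rfl⟩ := RingCon.mk'_surjective (con hf hι) r
    obtain ⟨b, rfl⟩ := RingCon.mk'_surjective (con hf hι) s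
    rw [bar_mk hf hι h1, bar_mk hf hι h2]
    exact hf.comm i j k l a b h1 h2 h3 h4
  mul := by
    intro i j k r s h1 h2 h3
    obtain ⟨a, rfl⟩ := RingCon.mk'_surjective (con hf hι) r
    obtain ⟨b, rfl⟩ := RingCon.mk'_surjective (con hf hι) s
    rw [← map_mul, bar_mk hf hι h1, bar_mk hf hι h2, bar_mk hf hι h3]
    exact hf.mul i j k a b h1 h2 h3

theorem mk_eq (hf : St f) (hι : Big ι) {a b : A} (h : ∀ i j, i ≠ j → f i j a = f i j b) :
    (con hf hι).mk' a = (con hf hι).mk' b :=
  (RingCon.eq (con hf hι)).mpr h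

end Quot

end Pool.Agent.KS6_39.CZ
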