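import Pool.Agent.KS6_39.CZ.Ring
import Pool.Agent.KS6_39.CZ.Cycle

/-!
Lifts of the permutation matrices to a group with Steinberg relations in characteristic two, and
roots of block scalar elements.
-/

namespace Pool.Agent.KS6_39.CZ

open scoped commutatorElement

variable {ι R G : Type*} [Ring R] [Group G] {e : ι → ι → R → G}

section Basic

variable (he : St e)
include he

theorem St.zero {i j : ι} (h : i ≠ j) : e i j 0 = 1 := by
  have := he.add i j 0 0 h
  rw [add_zero] at this
  exact mul_eq_left.mp this.symm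

variable (h2 : ∀ r : R, r + r = 0)
include h2

theorem St.sq {i j : ι} (h : i ≠ j) (r : R) : e i j r * e i j r = 1 := by
  rw [← he.add i j r r h, h2, he.zero h]

theorem St.inv {i j : ι} (h : i ≠ j) (r : R) : (e i j r)⁻¹ = e i j r :=
  inv_eq_of_mul_eq_one_left (he.sq h2 h r)

omit h2 in
theorem St.comm0 {i j k : ι} (hij : i ≠ j) (hjk : j ≠ k) (hik : i ≠ k) {r s : R}
    (h : r * s = 0) : Commute (e i j r) (e j k s) := by
  rw [← commutatorElement_eq_one_iff_commute, he.mul i j k r s hij hjk hik, h, he.zero hik]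

/-- conjugation on the right index -/
theorem St.conjR {i j k : ι} (hij : i ≠ j) (hjk : j ≠ k) (hik : i ≠ k) (r s : R) :
    e i j r * e j k s * (e i j r)⁻¹ = e i k (r * s) * e j k s := by
  rw [← he.mul i j k r s hij hjk hik, commutatorElement_def]; group

/-- conjugation on the left index -/
theorem St.conjL {i j k : ι} (hij : i ≠ j) (hjk : j ≠ k) (hik : i ≠ k) (r s : R) :
    e j k s * e i j r * (e j k s)⁻¹ = e i k (r * s) * e i j r := by
  have h1 : (e i k (r * s))⁻¹ = e i k (r * s) := he.inv h2 hik _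
  rw [← h1, ← he.mul i j k r s hij hjk hik, commutatorElement_def]; group

end Basic

/-- the lift of the matrix which differs from the unit matrix by `v * w` at the place `p, p` -/
def Dq (e : ι → ι → R → G) (q p : ι) (v w : R) : G := ⁅e p q v, e q p w⁆

section D

variable (he : St e) (h2 : ∀ r : R, r + r = 0) (hι : Big ι)
include he h2 hι

theorem Dq_indep {p q q' : ι} (hpq : p ≠ q) (hpq' : p ≠ q') {v w : R} (hwv : w * v = 0) :
    Dq e q p v w = Dq e q' p v w := by
  by_cases hqq : q = q'
  · rw [hqq]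
  have a1 : ⁅e p q v, e q q' 1⁆ = e p q' v := by
    rw [he.mul p q q' v 1 hpq hqq hpq', mul_one]
  have a2 : ⁅e q q' 1, e q' p w⁆ = e q p w := by
    rw [he.mul q q' p 1 w hqq hpq'.symm hpq.symm, one_mul]
  have a3 : Commute (e p q v) (e q' p w) :=
    (he.comm0 hpq'.symm hpq (Ne.symm hqq) hwv).symm
  have a4 : Commute (e q p w) (e p q' v) := he.comm0 hpq.symm hpq' hqq hwv
  have a5 := comm_assoc a3 (by rw [a1, a2]; exact a4)
  rw [a1, a2] at a5
  have a6 : Commute (e q p w) ⁅e p q' v, e q' p w⁆ :=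
    Commute.commutator a4 (he.comm q p q' p w w hpq.symm hpq'.symm hpq' hpq.symm)
  have a7 : ⁅e p q v, e q p w⁆ = e q p w * ⁅e p q' v, e q' p w⁆ * (e q p w)⁻¹ := by
    rw [a5]; group
  unfold Dq
  rw [a7, a6.eq]; group

omit hι in
theorem Dq_row {p q k : ι} (hpq : p ≠ q) (hpk : p ≠ k) (hqk : q ≠ k) {v w : R}
    (hwv : w * v = 0) (r : R) :
    Dq e q p v w * e p k r * (Dq e q p v w)⁻¹ = e p k ((1 + v * w) * r) := by
  have ix : (e p q v)⁻¹ = e p q v := he.inv h2 hpq v
  have iy : (e q p w)⁻¹ = e q p w := he.inv h2 hpq.symm w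
  have key : Dq e q p v w * e p k r * (Dq e q p v w)⁻¹ =
      e p q v * (e q p w * (e p q v * (e q p w * e p k r * (e q p w)⁻¹) * (e p q v)⁻¹) *
        (e q p w)⁻¹) * (e p q v)⁻¹ := by
    unfold Dq
    rw [commutatorElement_def, ix, iy]
    simp only [mul_inv_rev, ix, iy]
    group
  have c1 : e p q v * e p k r * (e p q v)⁻¹ = e p k r := by
    rw [(he.comm p q p k v r hpq hpk hpq.symm hpk).eq]; group
  have c2 : ∀ s, e q p w * e q k s * (e q p w)⁻¹ = e q k s := by
    intro s
    rw [(he.comm q p q k w s hpq.symm hqk hpq hqk).eq]; group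
  have m1 : ∀ (g a b : G), g * (a * b) * g⁻¹ = (g * a * g⁻¹) * (g * b * g⁻¹) := by
    intro g a b; group
  have e1 : w * (v * (w * r)) = 0 := by rw [← mul_assoc, hwv, zero_mul]
  have s1 : e q p w * e p k r * (e q p w)⁻¹ = e q k (w * r) * e p k r :=
    he.conjR h2 hpq.symm hpk hqk w r
  have s2 : e p q v * (e q k (w * r) * e p k r) * (e p q v)⁻¹ =
      e p k (v * (w * r)) * e q k (w * r) * e p k r := by
    rw [m1 (e p q v) (e q k (w * r)) (e p k r), he.conjR h2 hpq hqk hpk, c1]
  have c4 : e q p w * e p k (v * (w * r)) * (e q p w)⁻¹ = e p k (v * (w * r)) := by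
    rw [he.conjR h2 hpq.symm hpk hqk, e1, he.zero hqk, one_mul]
  have s3 : e q p w * (e p k (v * (w * r)) * e q k (w * r) * e p k r) * (e q p w)⁻¹ =
      e p k (v * (w * r)) * e p k r := by
    rw [m1 (e q p w) (e p k (v * (w * r)) * e q k (w * r)) (e p k r),
      m1 (e q p w) (e p k (v * (w * r))) (e q k (w * r)), c2, c4, s1]
    calc e p k (v * (w * r)) * e q k (w * r) * (e q k (w * r) * e p k r) =
        e p k (v * (w * r)) * (e q k (w * r) * e q k (w * r)) * e p k r := by group
      _ = _ := by rw [he.sq h2 hqk]; group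
  have c3 : e p q v * e p k (v * (w * r)) * (e p q v)⁻¹ = e p k (v * (w * r)) := by
    rw [(he.comm p q p k v _ hpq hpk hpq.symm hpk).eq]; group
  rw [key, s1, s2, s3, m1 (e p q v) (e p k (v * (w * r))) (e p k r), c3, c1, ← he.add p k _ _ hpk]
  congr 1
  rw [add_mul, one_mul, mul_assoc, add_comm]

omit hι in
theorem Dq_col {p q k : ι} (hpq : p ≠ q) (hpk : p ≠ k) (hqk : q ≠ k) {v w : R}
    (hwv : w * v = 0) (r : R) :
    Dq e q p v w * e k p r * (Dq e q p v w)⁻¹ = e k p (r * (1 + v * w)) := by
  have ix : (e p q v)⁻¹ = e p q v := he.inv h2 hpq v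
  have iy : (e q p w)⁻¹ = e q p w := he.inv h2 hpq.symm w
  have key : Dq e q p v w * e k p r * (Dq e q p v w)⁻¹ =
      e p q v * (e q p w * (e p q v * (e q p w * e k p r * (e q p w)⁻¹) * (e p q v)⁻¹) *
        (e q p w)⁻¹) * (e p q v)⁻¹ := by
    unfold Dq
    rw [commutatorElement_def, ix, iy]
    simp only [mul_inv_rev, ix, iy]
    group
  have c1 : ∀ s, e p q v * e k q s * (e p q v)⁻¹ = e k q s := by
    intro s
    rw [(he.comm p q k q v s hpq hqk.symm hqk hpq).eq]; group
  have c2 : ∀ s, e q p w * e k p s * (e q p w)⁻¹ = e k p s := by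
    intro s
    rw [(he.comm q p k p w s hpq.symm hpk.symm hpk hpq.symm).eq]; group
  have m1 : ∀ (g a b : G), g * (a * b) * g⁻¹ = (g * a * g⁻¹) * (g * b * g⁻¹) := by
    intro g a b; group
  have e1 : r * v * w * v = 0 := by rw [mul_assoc, hwv, mul_zero]
  have s2 : e p q v * e k p r * (e p q v)⁻¹ = e k q (r * v) * e k p r :=
    he.conjL h2 hpk.symm hpq hqk.symm r v
  have s3 : e q p w * (e k q (r * v) * e k p r) * (e q p w)⁻¹ =
      e k p (r * v * w) * e k q (r * v) * e k p r := by
    rw [m1 (e q p w) (e k q (r * v)) (e k p r), c2,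
      he.conjL h2 hqk.symm hpq.symm hpk.symm]
  have c4 : e p q v * e k p (r * v * w) * (e p q v)⁻¹ = e k p (r * v * w) := by
    rw [he.conjL h2 hpk.symm hpq hqk.symm, e1, he.zero hqk.symm, one_mul]
  have s4 : e p q v * (e k p (r * v * w) * e k q (r * v) * e k p r) * (e p q v)⁻¹ =
      e k p (r * v * w) * e k p r := by
    rw [m1 (e p q v) (e k p (r * v * w) * e k q (r * v)) (e k p r),
      m1 (e p q v) (e k p (r * v * w)) (e k q (r * v)), c1, c4, s2]
    calc e k p (r * v * w) * e k q (r * v) * (e k q (r * v) * e k p r) =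
        e k p (r * v * w) * (e k q (r * v) * e k q (r * v)) * e k p r := by group
      _ = _ := by rw [he.sq h2 hqk.symm]; group
  rw [key, c2, s2, s3, s4, ← he.add k p _ _ hpk.symm]
  congr 1
  rw [mul_add, mul_one, mul_assoc, add_comm]

omit hι h2 in
theorem Dq_off {p q k l : ι} (hpq : p ≠ q) (hpk : p ≠ k) (hqk : q ≠ k) (hpl : p ≠ l)
    (hql : q ≠ l) (hkl : k ≠ l) (v w r : R) : Commute (Dq e q p v w) (e k l r) := by
  refine (Commute.commutator ?_ ?_).symm
  · exact (he.comm p q k l v r hpq hkl hqk hpl).symm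
  · exact (he.comm q p k l w r hpq.symm hkl hpk hql).symm

end D

/-- choice of an index different from `p` -/
noncomputable def other (hι : Big ι) (p : ι) : ι := (hι p p p p).choose

theorem other_ne (hι : Big ι) (p : ι) : p ≠ other hι p := ((hι p p p p).choose_spec.1).symm

/-- the lift of the diagonal matrix with `1 + v * w` at the place `p` -/
noncomputable def D (hι : Big ι) (e : ι → ι → R → G) (p : ι) (v w : R) : G :=
  Dq e (other hι p) p v w

section DD

variable (he : St e) (h2 : ∀ r : R, r + r = 0) (hι : Big ι)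
include he h2

theorem D_eq {p q : ι} (hpq : p ≠ q) {v w : R} (hwv : w * v = 0) :
    D hι e p v w = Dq e q p v w := Dq_indep he h2 hι (other_ne hι p) hpq hwv

theorem D_row {p k : ι} (hpk : p ≠ k) {v w : R} (hwv : w * v = 0) (r : R) :
    D hι e p v w * e p k r * (D hι e p v w)⁻¹ = e p k ((1 + v * w) * r) := by
  obtain ⟨q, q1, q2, -, -⟩ := hι p k k k
  rw [D_eq he h2 hι q1.symm hwv]
  exact Dq_row he h2 q1.symm hpk q2 hwv r

theorem D_col {p k : ι} (hpk : p ≠ k) {v w : R} (hwv : w * v = 0) (r : R) :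
    D hι e p v w * e k p r * (D hι e p v w)⁻¹ = e k p (r * (1 + v * w)) := by
  obtain ⟨q, q1, q2, -, -⟩ := hι p k k k
  rw [D_eq he h2 hι q1.symm hwv]
  exact Dq_col he h2 q1.symm hpk q2 hwv r

theorem D_off {p k l : ι} (hpk : p ≠ k) (hpl : p ≠ l) (hkl : k ≠ l) {v w : R}
    (hwv : w * v = 0) (r : R) : Commute (D hι e p v w) (e k l r) := by
  obtain ⟨q, q1, q2, q3, -⟩ := hι p k l l
  rw [D_eq he h2 hι q1.symm hwv]
  exact Dq_off he q1.symm hpk q2 hpl q3 hkl v w r

theorem D_comm {p p' : ι} (hpp : p ≠ p') {v w v' w' : R} (hwv : w * v = 0)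
    (hwv' : w' * v' = 0) : Commute (D hι e p v w) (D hι e p' v' w') := by
  obtain ⟨q, q1, q2, -, -⟩ := hι p p' p' p'
  rw [D_eq he h2 hι q2.symm hwv']
  exact Commute.commutator (D_off he h2 hι hpp q1.symm q2.symm hwv _)
    (D_off he h2 hι q1.symm hpp q2 hwv _)

theorem D_sq (p : ι) {v w : R} (hwv : w * v = 0) : D hι e p v w * D hι e p v w = 1 := by
  have hne := other_ne hι p
  apply comm_sq (he.sq h2 hne v)
  have := D_row he h2 hι hne hwv v
  have e1 : (1 + v * w) * v = v := by rw [add_mul, mul_assoc, hwv]; simp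
  rw [e1] at this
  change D hι e p v w * e p (other hι p) v = e p (other hι p) v * D hι e p v w
  rw [mul_inv_eq_iff_eq_mul] at this
  exact this

/-- a unit of the form `1 + v * w` can be moved through -/
theorem D_unit (p : ι) {v w v' w' : R} (hwv : w * v = 0) (hwv' : w' * v' = 0) :
    D hι e p (v * (1 + v' * w')) ((1 + v' * w') * w) = D hι e p v w := by
  have hs : (1 + v' * w') * (1 + v' * w') = 1 := by
    have e1 : v' * w' * (v' * w') = 0 := by
      rw [mul_assoc, ← mul_assoc w' v' w', hwv']; simp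
    calc (1 + v' * w') * (1 + v' * w') = 1 + (v' * w' + v' * w') + v' * w' * (v' * w') := by
          noncomm_ring
      _ = 1 := by rw [e1, h2]; simp
  have hwv2 : ((1 + v' * w') * w) * (v * (1 + v' * w')) = 0 := by
    rw [mul_assoc, ← mul_assoc w v, hwv]; simp
  obtain ⟨q, q1, -, -, -⟩ := hι p p p p
  have hc : Commute (D hι e q v' w') (D hι e p v w) := D_comm he h2 hι q1 hwv' hwv
  have e1 : D hι e q v' w' * D hι e p v w * (D hι e q v' w')⁻¹ = D hι e p v w := by
    rw [hc.eq]; group
  rw [D_eq he h2 hι q1.symm hwv2, ← e1, D_eq he h2 hι q1.symm hwv]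
  unfold Dq
  rw [show ∀ g : G, g * ⁅e p q v, e q p w⁆ * g⁻¹ = ⁅g * e p q v * g⁻¹, g * e q p w * g⁻¹⁆ from
    fun g => by simp only [commutatorElement_def]; group]
  rw [D_col he h2 hι q1 hwv', D_row he h2 hι q1 hwv']

end DD

section T

variable (hι : Big ι)

/-- product of the lifts over a list of places -/
noncomputable def TL (e : ι → ι → R → G) (v w : R) (L : List ι) : G :=
  (L.map (fun p => D hι e p v w)).prod

variable (he : St e) (h2 : ∀ r : R, r + r = 0)
include he h2

open Classical in
theorem TL_conj {v w : R} (hwv : w * v = 0) (L : List ι) (hL : L.Nodup) {k l : ι} (hkl : k ≠ l)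
    (r : R) : TL hι e v w L * e k l r * (TL hι e v w L)⁻¹ =
      e k l ((if k ∈ L then 1 + v * w else 1) * r * (if l ∈ L then 1 + v * w else 1)) := by
  induction L with
  | nil => simp [TL]
  | cons p L ih =>
    have hp : p ∉ L := (List.nodup_cons.mp hL).1
    have ih' := ih (List.nodup_cons.mp hL).2
    have e1 : TL hι e v w (p :: L) * e k l r * (TL hι e v w (p :: L))⁻¹ =
        D hι e p v w * (TL hι e v w L * e k l r * (TL hι e v w L)⁻¹) * (D hι e p v w)⁻¹ := by
      simp only [TL, List.map_cons, List.prod_cons]; group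
    rw [e1, ih']
    by_cases hk : p = k
    · subst hk
      rw [D_row he h2 hι hkl hwv]
      simp only [hp, if_false, List.mem_cons, hkl.symm, false_or, true_or, if_true, one_mul,
        mul_assoc]
    · by_cases hl : p = l
      · subst hl
        rw [D_col he h2 hι hkl.symm hwv]
        simp only [hp, if_false, List.mem_cons, hkl, false_or, true_or, if_true, mul_one]
      · rw [(D_off he h2 hι hk hl hkl hwv _).eq, mul_inv_cancel_right]
        simp only [List.mem_cons, Ne.symm hk, Ne.symm hl, false_or]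

theorem TL_sq {v w : R} (hwv : w * v = 0) (L : List ι) (hL : L.Nodup) :
    TL hι e v w L * TL hι e v w L = 1 := by
  induction L with
  | nil => simp [TL]
  | cons p L ih =>
    have hp : p ∉ L := (List.nodup_cons.mp hL).1
    have ih' := ih (List.nodup_cons.mp hL).2
    have hc : ∀ L' : List ι, p ∉ L' → Commute (D hι e p v w) (TL hι e v w L') := by
      intro L'
      induction L' with
      | nil => intro _; simp [TL]
      | cons p' L' ih2 =>
        intro hp'
        simp only [List.mem_cons, not_or] at hp'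
        have : TL hι e v w (p' :: L') = D hι e p' v w * TL hι e v w L' := by
          simp [TL]
        rw [this]
        exact (D_comm he h2 hι hp'.1 hwv hwv).mul_right (ih2 hp'.2)
    have e1 : TL hι e v w (p :: L) = D hι e p v w * TL hι e v w L := by simp [TL]
    rw [e1]
    calc D hι e p v w * TL hι e v w L * (D hι e p v w * TL hι e v w L) =
        D hι e p v w * (TL hι e v w L * D hι e p v w) * TL hι e v w L := by group
      _ = D hι e p v w * (D hι e p v w * TL hι e v w L) * TL hι e v w L := by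
        rw [(hc L hp).eq]
      _ = (D hι e p v w * D hι e p v w) * (TL hι e v w L * TL hι e v w L) := by group
      _ = 1 := by rw [D_sq he h2 hι p hwv, ih', one_mul]

end T

end Pool.Agent.KS6_39.CZ
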