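import Pool.Agent.KS6_39.CZ.Group

/-!
The kernel of the map to the integers is complete.
-/

namespace Pool.Agent.KS6_39.CZ

open scoped commutatorElement

open X

variable {Z : Type}

/-- the map of the group onto the integers, on the generators -/
def piGen : Gen Z → Multiplicative ℤ
  | none => Multiplicative.ofAdd 1
  | some _ => 1

theorem lift_E (w : List (X Z)) (i j : Fin 5) : FreeGroup.lift piGen (E eF q5 w i j) = 1 := by
  rw [E_map]
  have : ∀ (w : List (X Z)) (i j : Fin 5),
      E (fun i j a => FreeGroup.lift piGen (eF i j a)) q5 w i j = 1 := by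
    intro w
    induction w with
    | nil => intro i j; simp [E, eF, piGen]
    | cons g w ih => intro i j; simp [E, eF, piGen]
  exact this w i j

theorem rel_pi (w : FreeGroup (Gen Z)) (hw : w ∈ rels) : FreeGroup.lift piGen w = 1 := by
  cases hw with
  | diag i a => simp [eF, piGen]
  | comm i j k l a b => simp [eF, piGen]
  | mulr i j k a => simp [eF, piGen]
  | mull i j k a => simp [eF, piGen]
  | sq i j a => simp [eF, piGen]
  | ring i j ρ _ _ =>
    rw [map_list_prod, List.map_map]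
    apply List.prod_eq_one
    intro z hz
    rw [List.mem_map] at hz
    obtain ⟨w, -, rfl⟩ := hz
    exact lift_E w i j
  | t1 i j => simp [eF, tF, piGen]
  | tg i j g =>
    rw [map_mul, map_inv, lift_E]
    simp [eF, tF, piGen]

/-- the map of the group onto the integers -/
def pi : GG Z →* Multiplicative ℤ := PresentedGroup.toGroup (f := piGen) rel_pi

theorem pi_ee (i j : Fin 5) (a : Option (X Z)) : pi (ee i j a) = 1 := by
  change pi (PresentedGroup.of _) = 1
  rw [pi, PresentedGroup.toGroup.of]; rfl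

theorem pi_tt : pi (tt (Z := Z)) = Multiplicative.ofAdd 1 := by
  change pi (PresentedGroup.of _) = _
  rw [pi, PresentedGroup.toGroup.of]; rfl

/-- the Steinberg family over the free algebra -/
noncomputable def ff : Fin 5 → Fin 5 → FA (X Z) → GG Z :=
  (exists_FA (X := X Z) base_ee pick5 big5).choose

theorem ff_St : St (ff (Z := Z)) := (exists_FA (X := X Z) base_ee pick5 big5).choose_spec.1

theorem ff_wd {i j : Fin 5} (hij : i ≠ j) (w : List (X Z)) : ff i j (wd w) = E ee q5 w i j :=
  (exists_FA (X := X Z) base_ee pick5 big5).choose_spec.2 i j w hij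

/-- the ring acting -/
abbrev RR (Z : Type) : Type := (con (ff_St (Z := Z)) big5).Quotient

/-- the Steinberg family over the ring -/
noncomputable def rr : Fin 5 → Fin 5 → RR Z → GG Z := bar ff_St big5

theorem rr_St : St (rr (Z := Z)) := bar_St ff_St big5

/-- class of an element of the free algebra -/
noncomputable def cl : FA (X Z) →+* RR Z := (con ff_St big5).mk'

theorem rr_cl {i j : Fin 5} (hij : i ≠ j) (a : FA (X Z)) : rr i j (cl a) = ff i j a :=
  bar_mk ff_St big5 hij a

theorem cl_eq {a b : FA (X Z)} (h : ∀ i j, i ≠ j → ff i j a = ff i j b) : cl a = cl b :=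
  mk_eq ff_St big5 h

theorem FA_char2 (a : FA (X Z)) : a + a = 0 := by
  have : (2 : ZMod 2) • a = 0 := by
    rw [show (2 : ZMod 2) = 0 from rfl, zero_smul]
  rw [two_smul] at this; exact this

theorem RR_char2 (r : RR Z) : r + r = 0 := by
  obtain ⟨a, rfl⟩ := RingCon.mk'_surjective (con ff_St big5) r
  rw [← map_add, FA_char2, map_zero]

theorem eq_of_add_zero {r s : RR Z} (h : r + s = 0) : r = s := by
  have h1 := RR_char2 s
  calc r = r + (s + s) := by rw [h1, add_zero]
    _ = (r + s) + s := by rw [add_assoc]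
    _ = s := by rw [h, zero_add]

/-- class of a letter -/
noncomputable def al (g : X Z) : RR Z := cl (wd [g])

theorem ff_sum {i j : Fin 5} (hij : i ≠ j) (ρ : List (List (X Z))) :
    ff i j (ρ.map wd).sum = (ρ.map (fun w => E ee q5 w i j)).prod := by
  induction ρ with
  | nil => simpa using ff_St.zero hij
  | cons w ρ ih =>
    simp only [List.map_cons, List.sum_cons, List.prod_cons]
    rw [ff_St.add i j _ _ hij, ih, ff_wd hij]

theorem cl_ring {ρ : List (List (X Z))} (hρ : ρ ∈ ringRels) : cl (ρ.map wd).sum = 0 := by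
  rw [← map_zero cl]
  apply cl_eq
  intro i j hij
  rw [ff_sum hij, ring_ee hij hρ, ff_St.zero hij]

theorem wd_cons (g : X Z) (w : List (X Z)) : (wd (g :: w) : FA (X Z)) = wd [g] * wd w := by
  rw [← wd_append]; rfl

theorem leav1 : (al b0 : RR Z) * al a0 = 1 := by
  have := cl_ring (Z := Z) (ρ := [[b0, a0], []]) (by simp [ringRels])
  simp only [List.map_cons, List.map_nil, List.sum_cons, List.sum_nil, add_zero, wd_nil,
    wd_cons b0 [a0], map_add, map_mul, map_one] at this
  exact eq_of_add_zero this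

theorem leav2 : (al b1 : RR Z) * al a1 = 1 := by
  have := cl_ring (Z := Z) (ρ := [[b1, a1], []]) (by simp [ringRels])
  simp only [List.map_cons, List.map_nil, List.sum_cons, List.sum_nil, add_zero, wd_nil,
    wd_cons b1 [a1], map_add, map_mul, map_one] at this
  exact eq_of_add_zero this

theorem leav3 : (al b0 : RR Z) * al a1 = 0 := by
  have := cl_ring (Z := Z) (ρ := [[b0, a1]]) (by simp [ringRels])
  simp only [List.map_cons, List.map_nil, List.sum_cons, List.sum_nil, add_zero,
    wd_cons b0 [a1], map_mul] at this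
  exact this

theorem leav4 : (al b1 : RR Z) * al a0 = 0 := by
  have := cl_ring (Z := Z) (ρ := [[b1, a0]]) (by simp [ringRels])
  simp only [List.map_cons, List.map_nil, List.sum_cons, List.sum_nil, add_zero,
    wd_cons b1 [a0], map_mul] at this
  exact this

theorem leav5 : (al a0 : RR Z) * al b0 + al a1 * al b1 = 1 := by
  have := cl_ring (Z := Z) (ρ := [[a0, b0], [a1, b1], []]) (by simp [ringRels])
  simp only [List.map_cons, List.map_nil, List.sum_cons, List.sum_nil, add_zero, wd_nil,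
    wd_cons a0 [b0], wd_cons a1 [b1], map_add, map_mul, map_one] at this
  rw [← add_assoc] at this
  exact eq_of_add_zero this

theorem comm_psi {l : X Z} (hl : isL l) (g : X Z) : Commute (al l) (cl (wd (psi g))) := by
  have := cl_ring (Z := Z) (ρ := [l :: psi g, psi g ++ [l]]) (Or.inr ⟨l, g, hl, rfl⟩)
  simp only [List.map_cons, List.map_nil, List.sum_cons, List.sum_nil, add_zero,
    wd_cons l (psi g), wd_append, map_add, map_mul] at this
  exact eq_of_add_zero this

/-- elements which commute with the Leavitt letters -/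
def CC (r : RR Z) : Prop := ∀ l, isL l → Commute (al l) r

theorem CC_word (w : List (X Z)) : CC (cl (wd (w.flatMap psi))) := by
  intro l hl
  induction w with
  | nil => rw [List.flatMap_nil, wd_nil, map_one]; exact Commute.one_right _
  | cons g w ih =>
    rw [List.flatMap_cons, wd_append, map_mul]
    exact (comm_psi hl g).mul_right ih

theorem t_conj (a : FA (X Z)) : ∃ c : RR Z, CC c ∧ ∀ i j, i ≠ j → tt * ff i j a * tt⁻¹ = rr i j c := by
  induction a using FA_ind with
  | h0 =>
    refine ⟨0, fun l _ => Commute.zero_right _, fun i j hij => ?_⟩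
    rw [ff_St.zero hij, rr_St.zero hij]; group
  | ha a b iha ihb =>
    obtain ⟨c, hc, h1⟩ := iha
    obtain ⟨d, hd, h2⟩ := ihb
    refine ⟨c + d, fun l hl => (hc l hl).add_right (hd l hl), fun i j hij => ?_⟩
    rw [ff_St.add i j _ _ hij, rr_St.add i j _ _ hij, ← h1 i j hij, ← h2 i j hij]; group
  | h1 w =>
    refine ⟨_, CC_word w, fun i j hij => ?_⟩
    rw [rr_cl hij, ff_wd hij, ff_wd hij, t_word hij]

theorem family (m : ℕ) : ∃ a b : ℕ → RR Z, ON a b (m + 1) ∧
    ∑ i ∈ Finset.range (m + 1), a i * b i = 1 ∧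
    ∀ c, CC c → ∀ i, i < m + 1 → Commute (b i) c := by
  induction m with
  | zero =>
    refine ⟨fun _ => 1, fun _ => 1, ?_, by simp, fun c _ i _ => Commute.one_left _⟩
    intro i j hi hj
    have : i = j := by omega
    simp [this]
  | succ m ih =>
    obtain ⟨a, b, h1, h2, h3⟩ := ih
    refine ⟨fun i => match i with | 0 => al a0 | i + 1 => al a1 * a i,
      fun i => match i with | 0 => al b0 | i + 1 => b i * al b1, ?_, ?_, ?_⟩
    · intro i j hi hj
      match i, j with
      | 0, 0 => simp [leav1]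
      | 0, j + 1 =>
        simp only [← mul_assoc, leav3, zero_mul]
        simp
      | i + 1, 0 =>
        simp only [mul_assoc, leav4, mul_zero]
        simp
      | i + 1, j + 1 =>
        have e1 : b i * al b1 * (al a1 * a j) = b i * a j := by
          rw [mul_assoc, ← mul_assoc (al b1), leav2, one_mul]
        simp only [e1, h1 i j (by omega) (by omega)]
        by_cases hij : i = j <;> simp [hij]
    · rw [Finset.sum_range_succ']
      have e1 : ∀ k ∈ Finset.range (m + 1), al a1 * a k * (b k * al b1) =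
          al a1 * (a k * b k) * al b1 := by
        intro k _
        simp only [mul_assoc]
      rw [Finset.sum_congr rfl e1, ← Finset.sum_mul, ← Finset.mul_sum, h2, mul_one, add_comm]
      exact leav5
    · intro c hc i hi
      match i with
      | 0 => exact hc b0 trivial
      | i + 1 => exact (h3 c hc i (by omega)).mul_left (hc b1 trivial)

/-- the subgroup generated by the elementary elements -/
def UU : Subgroup (GG Z) := Subgroup.closure {g | ∃ i j r, i ≠ j ∧ g = ff i j r}

theorem UU_t {u : GG Z} (hu : u ∈ UU) : ∃ l : List (Fin 5 × Fin 5 × RR Z),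
    (∀ x ∈ l, x.1 ≠ x.2.1) ∧ (∀ x ∈ l, CC x.2.2) ∧
    tt * u * tt⁻¹ = (l.map (fun x => rr x.1 x.2.1 x.2.2)).prod := by
  induction hu using Subgroup.closure_induction with
  | mem g hg =>
    obtain ⟨i, j, r, hij, rfl⟩ := hg
    obtain ⟨c, hc, h⟩ := t_conj r
    refine ⟨[(i, j, c)], by simpa using hij, by simpa using hc, ?_⟩
    simp [h i j hij]
  | one => exact ⟨[], by simp, by simp, by simp⟩
  | mul g h _ _ ihg ihh =>
    obtain ⟨l, h1, h2, h3⟩ := ihg
    obtain ⟨l', h1', h2', h3'⟩ := ihh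
    refine ⟨l ++ l', ?_, ?_, ?_⟩
    · intro x hx
      rcases List.mem_append.mp hx with h | h
      · exact h1 x h
      · exact h1' x h
    · intro x hx
      rcases List.mem_append.mp hx with h | h
      · exact h2 x h
      · exact h2' x h
    · rw [List.map_append, List.prod_append, ← h3, ← h3']; group
  | inv g _ ihg =>
    obtain ⟨l, h1, h2, h3⟩ := ihg
    refine ⟨l.reverse, fun x hx => h1 x (List.mem_reverse.mp hx),
      fun x hx => h2 x (List.mem_reverse.mp hx), ?_⟩
    have e1 : tt * g⁻¹ * tt⁻¹ = (tt * g * tt⁻¹)⁻¹ := by group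
    rw [e1, h3, List.prod_inv_reverse, List.map_map, ← List.map_reverse]
    congr 1
    apply List.map_congr_left
    intro x hx
    exact rr_St.inv RR_char2 (h1 x (List.mem_reverse.mp hx)) _

theorem UU_le_ker {u : GG Z} (hu : u ∈ UU) : pi u = 1 := by
  have hE : ∀ (w : List (X Z)) (i j : Fin 5), pi (E ee q5 w i j) = 1 := by
    intro w i j
    rw [E_map]
    cases w with
    | nil => exact pi_ee _ _ _
    | cons g w =>
      simp only [E]
      rw [pi_ee]; simp
  induction hu using Subgroup.closure_induction with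
  | mem g hg =>
    obtain ⟨i, j, r, hij, rfl⟩ := hg
    induction r using FA_ind with
    | h0 => rw [ff_St.zero hij, map_one]
    | ha a b iha ihb => rw [ff_St.add i j _ _ hij, map_mul, iha, ihb, mul_one]
    | h1 w => rw [ff_wd hij, hE]
  | one => exact map_one _
  | mul g h _ _ ihg ihh => rw [map_mul, ihg, ihh, mul_one]
  | inv g _ ihg => rw [map_inv, ihg, inv_one]

theorem rr_mem {i j : Fin 5} (hij : i ≠ j) (r : RR Z) : rr i j r ∈ UU := by
  obtain ⟨a, rfl⟩ := RingCon.mk'_surjective (con ff_St big5) r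
  exact Subgroup.subset_closure ⟨i, j, a, hij, rr_cl hij a⟩

theorem UU_t_mem {u : GG Z} (hu : u ∈ UU) : tt * u * tt⁻¹ ∈ UU := by
  obtain ⟨l, h1, -, h3⟩ := UU_t hu
  rw [h3]
  apply Subgroup.list_prod_mem
  intro z hz
  rw [List.mem_map] at hz
  obtain ⟨x, hx, rfl⟩ := hz
  exact rr_mem (h1 x hx) _

theorem UU_tn_mem {u : GG Z} (hu : u ∈ UU) (n : ℕ) : tt ^ n * u * (tt ^ n)⁻¹ ∈ UU := by
  induction n with
  | zero => simpa using hu
  | succ n ih =>
    have : tt ^ (n + 1) * u * (tt ^ (n + 1))⁻¹ = tt * (tt ^ n * u * (tt ^ n)⁻¹) * tt⁻¹ := by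
      rw [pow_succ']; group
    rw [this]; exact UU_t_mem ih

/-- the union of the conjugates of `UU` -/
def NN : Subgroup (GG Z) where
  carrier := {g | ∃ n : ℕ, tt ^ n * g * (tt ^ n)⁻¹ ∈ UU}
  mul_mem' := by
    rintro g h ⟨n, hn⟩ ⟨m, hm⟩
    refine ⟨n + m, ?_⟩
    have e1 : tt ^ (n + m) * (g * h) * (tt ^ (n + m))⁻¹ =
        (tt ^ m * (tt ^ n * g * (tt ^ n)⁻¹) * (tt ^ m)⁻¹) *
          (tt ^ n * (tt ^ m * h * (tt ^ m)⁻¹) * (tt ^ n)⁻¹) := by
      have h1 : (tt : GG Z) ^ (n + m) = tt ^ m * tt ^ n := by rw [add_comm, pow_add]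
      have h2 : (tt : GG Z) ^ (n + m) = tt ^ n * tt ^ m := by rw [pow_add]
      calc tt ^ (n + m) * (g * h) * (tt ^ (n + m))⁻¹ =
          (tt ^ (n + m) * g * (tt ^ (n + m))⁻¹) * (tt ^ (n + m) * h * (tt ^ (n + m))⁻¹) := by
            group
        _ = ((tt ^ m * tt ^ n) * g * (tt ^ m * tt ^ n)⁻¹) *
            ((tt ^ n * tt ^ m) * h * (tt ^ n * tt ^ m)⁻¹) := by rw [← h1, ← h2]
        _ = _ := by simp only [mul_inv_rev, mul_assoc]
    rw [e1]
    exact UU.mul_mem (UU_tn_mem hn m) (UU_tn_mem hm n)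
  one_mem' := ⟨0, by simpa using UU.one_mem⟩
  inv_mem' := by
    rintro g ⟨n, hn⟩
    refine ⟨n, ?_⟩
    have : tt ^ n * g⁻¹ * (tt ^ n)⁻¹ = (tt ^ n * g * (tt ^ n)⁻¹)⁻¹ := by group
    rw [this]; exact UU.inv_mem hn

theorem NN_t {g : GG Z} (hg : g ∈ NN) : tt * g * tt⁻¹ ∈ NN := by
  obtain ⟨n, hn⟩ := hg
  refine ⟨n, ?_⟩
  have : tt ^ n * (tt * g * tt⁻¹) * (tt ^ n)⁻¹ = tt * (tt ^ n * g * (tt ^ n)⁻¹) * tt⁻¹ := by
    have e : (tt : GG Z) ^ n * tt = tt * tt ^ n := by rw [← pow_succ, pow_succ']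
    calc tt ^ n * (tt * g * tt⁻¹) * (tt ^ n)⁻¹ = (tt ^ n * tt) * g * (tt ^ n * tt)⁻¹ := by group
      _ = (tt * tt ^ n) * g * (tt * tt ^ n)⁻¹ := by rw [e]
      _ = _ := by group
  rw [this]; exact UU_t_mem hn

theorem NN_t' {g : GG Z} (hg : g ∈ NN) : tt⁻¹ * g * tt ∈ NN := by
  obtain ⟨n, hn⟩ := hg
  refine ⟨n + 1, ?_⟩
  have : tt ^ (n + 1) * (tt⁻¹ * g * tt) * (tt ^ (n + 1))⁻¹ = tt ^ n * g * (tt ^ n)⁻¹ := by
    rw [pow_succ]; group
  rw [this]; exact hn

theorem NN_tz {g : GG Z} (hg : g ∈ NN) (k : ℤ) : tt ^ k * g * (tt ^ k)⁻¹ ∈ NN := by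
  have h1 : ∀ n : ℕ, tt ^ n * g * (tt ^ n)⁻¹ ∈ NN := by
    intro n
    induction n with
    | zero => simpa using hg
    | succ n ih =>
      have : tt ^ (n + 1) * g * (tt ^ (n + 1))⁻¹ = tt * (tt ^ n * g * (tt ^ n)⁻¹) * tt⁻¹ := by
        rw [pow_succ']; group
      rw [this]; exact NN_t ih
  have h2 : ∀ n : ℕ, (tt ^ n)⁻¹ * g * (tt ^ n) ∈ NN := by
    intro n
    induction n with
    | zero => simpa using hg
    | succ n ih =>
      have : (tt ^ (n + 1))⁻¹ * g * (tt ^ (n + 1)) = tt⁻¹ * ((tt ^ n)⁻¹ * g * (tt ^ n)) * tt := by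
        rw [pow_succ]; group
      rw [this]; exact NN_t' ih
  obtain ⟨n, rfl | rfl⟩ := Int.eq_nat_or_neg k
  · simpa using h1 n
  · simpa using h2 n

theorem NN_le_ker {g : GG Z} (hg : g ∈ NN) : pi g = 1 := by
  obtain ⟨n, hn⟩ := hg
  have := UU_le_ker hn
  rw [map_mul, map_mul, map_inv, mul_comm (pi (tt ^ n)), mul_inv_cancel_right] at this
  exact this

theorem all (g : GG Z) : ∃ k : ℤ, g * tt ^ k ∈ NN := by
  have hg : g ∈ Subgroup.closure (Set.range (PresentedGroup.of (rels := rels (Z := Z)))) := by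
    rw [PresentedGroup.closure_range_of]; trivial
  induction hg using Subgroup.closure_induction with
  | mem g hg =>
    obtain ⟨a, rfl⟩ := hg
    match a with
    | none =>
      refine ⟨-1, ?_⟩
      have : (PresentedGroup.of none : GG Z) * tt ^ (-1 : ℤ) = 1 := by
        change tt * tt ^ (-1 : ℤ) = 1
        group
      rw [this]; exact NN.one_mem
    | some (i, j, a) =>
      refine ⟨0, ?_⟩
      have h1 : (PresentedGroup.of (some (i, j, a)) : GG Z) = ee i j a := rfl
      rw [h1, zpow_zero, mul_one]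
      by_cases hij : i = j
      · subst hij
        rw [ee_diag]; exact NN.one_mem
      · refine ⟨0, ?_⟩
        rw [pow_zero, one_mul, inv_one, mul_one]
        refine Subgroup.subset_closure ?_
        cases a with
        | none => exact ⟨i, j, wd [], hij, by rw [ff_wd hij]; rfl⟩
        | some g => exact ⟨i, j, wd [g], hij, by
            rw [ff_wd hij, E_single base_ee pick5 g hij]⟩
  | one => exact ⟨0, by simpa using NN.one_mem⟩
  | mul g h _ _ ihg ihh =>
    obtain ⟨k, hk⟩ := ihg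
    obtain ⟨l, hl⟩ := ihh
    refine ⟨k + l, ?_⟩
    have : g * h * tt ^ (k + l) = (g * tt ^ k) * (tt ^ (-k) * (h * tt ^ l) * (tt ^ (-k))⁻¹) := by
      rw [zpow_add]
      have : (tt : GG Z) ^ k * tt ^ l = tt ^ l * tt ^ k := by rw [← zpow_add, ← zpow_add, add_comm]
      rw [this]; group
    rw [this]
    exact NN.mul_mem hk (NN_tz hl _)
  | inv g _ ihg =>
    obtain ⟨k, hk⟩ := ihg
    refine ⟨-k, ?_⟩
    have : g⁻¹ * tt ^ (-k) = tt ^ k * (g * tt ^ k)⁻¹ * (tt ^ k)⁻¹ := by group
    rw [this]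
    exact NN_tz (NN.inv_mem hk) k

theorem mem_NN {g : GG Z} (hg : pi g = 1) : g ∈ NN := by
  obtain ⟨k, hk⟩ := all g
  have h1 := NN_le_ker hk
  rw [map_mul, hg, one_mul, map_zpow, pi_tt] at h1
  have h2 : k = 0 := by
    have := congrArg Multiplicative.toAdd h1
    simpa using this
  rw [h2, zpow_zero, mul_one] at hk
  exact hk

/-- the kernel is complete -/
theorem ker_complete {g : GG Z} (hg : pi g = 1) (m : ℕ) (hm : 1 ≤ m) :
    ∃ h : GG Z, pi h = 1 ∧ h ^ m = g := by
  obtain ⟨n, hn⟩ := mem_NN hg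
  obtain ⟨l, h1, h2, h3⟩ := UU_t hn
  obtain ⟨m, rfl⟩ : ∃ k, m = k + 1 := ⟨m - 1, by omega⟩
  obtain ⟨a, b, f1, f2, f3⟩ := family m
  obtain ⟨h, hh⟩ := root rr_St RR_char2 big5 f1 f2 l h1 (fun x hx i hi => f3 _ (h2 x hx) i hi)
  rw [← h3] at hh
  have h4 : (tt ^ (n + 1))⁻¹ * h ^ (m + 1) * tt ^ (n + 1) = g := by
    rw [hh, pow_succ' tt n]; group
  have h5 : ((tt ^ (n + 1))⁻¹ * h * tt ^ (n + 1)) ^ (m + 1) = g := by
    have := conj_pow (a := (tt ^ (n + 1))⁻¹) (b := h) (i := m + 1)
    rw [inv_inv] at this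
    rw [this, h4]
  refine ⟨_, ?_, h5⟩
  have h6 := congrArg pi h5
  rw [map_pow, hg] at h6
  have h7 := congrArg Multiplicative.toAdd h6
  rw [toAdd_pow, toAdd_one, smul_eq_zero] at h7
  rcases h7 with h7 | h7
  · omega
  · exact Multiplicative.toAdd.injective h7

end Pool.Agent.KS6_39.CZ
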