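import Mathlib

/-!
Steinberg type relations for words: a finite set of relations between the elements `e i j a`
(`a` a letter or the unit) implies the Steinberg relations for all words in the letters.
-/

namespace Pool.Agent.KS6_39.CZ

open scoped commutatorElement

section Gen

variable {G : Type*} [Group G]

theorem comm_assoc {x y z : G} (hxz : Commute x z) (h1 : Commute ⁅y, z⁆ ⁅x, y⁆) :
    ⁅⁅x, y⁆, z⁆ = ⁅y, z⁆⁻¹ * ⁅x, ⁅y, z⁆⁆ * ⁅y, z⁆ := by
  have e1 : z * ⁅x, y⁆ * z⁻¹ = x * ⁅y, z⁆⁻¹ * x⁻¹ * ⁅y, z⁆ * ⁅x, y⁆ := by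
    have h1' : ⁅y, z⁆ * ⁅x, y⁆ = ⁅x, y⁆ * ⁅y, z⁆ := h1
    have h2 : x * ⁅y, z⁆⁻¹ * x⁻¹ * ⁅y, z⁆ * ⁅x, y⁆ = x * ⁅y, z⁆⁻¹ * x⁻¹ * (⁅x, y⁆ * ⁅y, z⁆) := by
      rw [← h1']; group
    rw [h2]
    have h3 : z * x = x * z := hxz.eq.symm
    have h4 : z⁻¹ * x⁻¹ = x⁻¹ * z⁻¹ := by
      rw [← mul_inv_rev, ← mul_inv_rev, h3]
    have h5 : z * ⁅x, y⁆ * z⁻¹ = (z * x) * y * x⁻¹ * y⁻¹ * z⁻¹ := by
      simp only [commutatorElement_def]; group
    rw [h5, h3]
    have h6 : x * ⁅y, z⁆⁻¹ * x⁻¹ * (⁅x, y⁆ * ⁅y, z⁆) = x * z * y * (z⁻¹ * x⁻¹) * z * y⁻¹ * z⁻¹ := by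
      simp only [commutatorElement_def]; group
    rw [h6, h4]; group
  have e2 : ⁅⁅x, y⁆, z⁆ = ⁅x, y⁆ * (z * ⁅x, y⁆ * z⁻¹)⁻¹ := by
    rw [commutatorElement_def ⁅x, y⁆ z]; group
  rw [e2, e1, commutatorElement_def x ⁅y, z⁆]; group

theorem comm_assoc' {x y z : G} (hxz : Commute x z) (h1 : Commute ⁅y, z⁆ ⁅x, y⁆)
    (h2 : Commute ⁅y, z⁆ ⁅x, ⁅y, z⁆⁆) : ⁅⁅x, y⁆, z⁆ = ⁅x, ⁅y, z⁆⁆ := by
  rw [comm_assoc hxz h1, mul_assoc, ← h2.eq]; group

theorem Commute.commutator {a x y : G} (h1 : Commute a x) (h2 : Commute a y) :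
    Commute a ⁅x, y⁆ := by
  rw [commutatorElement_def]
  exact ((h1.mul_right h2).mul_right h1.inv_right).mul_right h2.inv_right

/-- the square of a commutator -/
theorem comm_sq {x y : G} (hx : x * x = 1) (h : Commute ⁅x, y⁆ x) : ⁅x, y⁆ * ⁅x, y⁆ = 1 := by
  have hx' : x⁻¹ = x := inv_eq_of_mul_eq_one_left hx
  have h1 : ⁅x, y⁆ * x = x * ⁅x, y⁆ := h
  have h2 : x * ⁅x, y⁆ = y * x * y⁻¹ := by
    rw [commutatorElement_def, hx']
    calc x * (x * y * x * y⁻¹) = (x * x) * (y * x * y⁻¹) := by group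
      _ = _ := by rw [hx, one_mul]
  have h3 : (x * ⁅x, y⁆) * (x * ⁅x, y⁆) = 1 := by
    rw [h2]
    calc y * x * y⁻¹ * (y * x * y⁻¹) = y * (x * x) * y⁻¹ := by group
      _ = 1 := by rw [hx]; group
  calc ⁅x, y⁆ * ⁅x, y⁆ = (x * x) * (⁅x, y⁆ * ⁅x, y⁆) := by rw [hx, one_mul]
    _ = x * (x * ⁅x, y⁆) * ⁅x, y⁆ := by group
    _ = x * (⁅x, y⁆ * x) * ⁅x, y⁆ := by rw [h1]
    _ = (x * ⁅x, y⁆) * (x * ⁅x, y⁆) := by group
    _ = 1 := h3

end Gen

/-- types with at least five elements -/
def Big (ι : Type*) : Prop := ∀ i j k l : ι, ∃ p, p ≠ i ∧ p ≠ j ∧ p ≠ k ∧ p ≠ l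

variable {ι X G : Type*} [Group G]

/-- the finite set of Steinberg relations for the letters; `none` stands for the unit -/
structure Base (e : ι → ι → Option X → G) : Prop where
  comm : ∀ i j k l a b, i ≠ j → k ≠ l → j ≠ k → i ≠ l → Commute (e i j a) (e k l b)
  mulr : ∀ i j k a, i ≠ j → j ≠ k → i ≠ k → ⁅e i j a, e j k none⁆ = e i k a
  mull : ∀ i j k a, i ≠ j → j ≠ k → i ≠ k → ⁅e i j none, e j k a⁆ = e i k a
  sq : ∀ i j a, i ≠ j → e i j a * e i j a = 1

/-- the element attached to a word -/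
def E (e : ι → ι → Option X → G) (q : ι → ι → ι) : List X → ι → ι → G
  | [], i, j => e i j none
  | a :: w, i, j => ⁅e i (q i j) (some a), E e q w (q i j) j⁆

/-- `q i j` is different from `i` and `j` -/
def Pick (q : ι → ι → ι) : Prop := ∀ i j, q i j ≠ i ∧ q i j ≠ j

variable {e : ι → ι → Option X → G} {q : ι → ι → ι}

theorem E_single (he : Base e) (hq : Pick q) (a : X) {i j : ι} (h : i ≠ j) :
    E e q [a] i j = e i j (some a) := by
  simp only [E]
  exact he.mulr _ _ _ _ (hq i j).1.symm (hq i j).2 h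

theorem E_map {H : Type*} [Group H] (f : G →* H) (w : List X) (i j : ι) :
    f (E e q w i j) = E (fun i j a => f (e i j a)) q w i j := by
  induction w generalizing i j with
  | nil => rfl
  | cons a w ih => simp only [E, map_commutatorElement, ih]

/-- commutation for words of length at most `m` -/
def C1 (e : ι → ι → Option X → G) (q : ι → ι → ι) (m : ℕ) : Prop :=
  ∀ w w' : List X, w.length ≤ m → w'.length ≤ m → ∀ i j k l, i ≠ j → k ≠ l → j ≠ k → i ≠ l →
    Commute (E e q w i j) (E e q w' k l)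

/-- multiplication for words of total length at most `m` -/
def C2 (e : ι → ι → Option X → G) (q : ι → ι → ι) (m : ℕ) : Prop :=
  ∀ w w' : List X, w.length + w'.length ≤ m → ∀ i j k, i ≠ j → j ≠ k → i ≠ k →
    ⁅E e q w i j, E e q w' j k⁆ = E e q (w ++ w') i k

theorem C1_one (he : Base e) (hq : Pick q) : C1 e q 1 := by
  have key : ∀ w : List X, w.length ≤ 1 → ∃ a : Option X, ∀ i j, i ≠ j → E e q w i j = e i j a := by
    intro w hw
    match w, hw with
    | [], _ => exact ⟨none, fun i j _ => rfl⟩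
    | [a], _ => exact ⟨some a, fun i j h => E_single he hq a h⟩
  intro w w' hw hw' i j k l h1 h2 h3 h4
  obtain ⟨a, ha⟩ := key w hw
  obtain ⟨b, hb⟩ := key w' hw'
  rw [ha i j h1, hb k l h2]
  exact he.comm i j k l a b h1 h2 h3 h4

theorem C2_one (he : Base e) (hq : Pick q) : C2 e q 1 := by
  intro w w' hw i j k h1 h2 h3
  match w, w', hw with
  | [], [], _ => exact he.mulr i j k none h1 h2 h3
  | [a], [], _ =>
    simp only [List.append_nil]
    rw [E_single he hq a h1, E_single he hq a h3]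
    exact he.mulr i j k _ h1 h2 h3
  | [], [a], _ =>
    simp only [List.nil_append]
    rw [E_single he hq a h2, E_single he hq a h3]
    exact he.mull i j k _ h1 h2 h3
  | a :: w, b :: w', hw => simp at hw; omega
  | a :: b :: w, [], hw => simp at hw
  | [], a :: b :: w, hw => simp at hw

section Step

variable (he : Base e) (hq : Pick q) (hι : Big ι) {m : ℕ} (h1 : C1 e q m) (h2 : C2 e q m)

include h1 h2

/-- the product does not depend on the middle index -/
theorem F_indep {u v : List X} (hu : u.length ≤ m) (hv : v.length ≤ m) {i j j' k : ι}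
    (hij : i ≠ j) (hjk : j ≠ k) (hij' : i ≠ j') (hjk' : j' ≠ k) (hik : i ≠ k) (hjj : j ≠ j') :
    ⁅E e q u i j, E e q v j k⁆ = ⁅E e q u i j', E e q v j' k⁆ := by
  have a1 : ⁅E e q u i j', E e q [] j' j⁆ = E e q u i j := by
    have := h2 u [] (by simpa using hu) i j' j hij' hjj.symm hij
    simpa using this
  have a2 : ⁅E e q [] j' j, E e q v j k⁆ = E e q v j' k := by
    have := h2 [] v (by simpa using hv) j' j k hjj.symm hjk hjk'
    simpa using this
  have a3 : Commute (E e q u i j') (E e q v j k) := h1 u v hu hv i j' j k hij' hjk hjj.symm hik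
  have a4 : Commute (E e q v j' k) (E e q u i j) :=
    h1 v u hv hu j' k i j hjk' hij hik.symm hjj.symm
  have a5 := comm_assoc a3 (by rw [a1, a2]; exact a4)
  rw [a1, a2] at a5
  have a6 : Commute (E e q v j' k) ⁅E e q u i j, E e q v j k⁆ :=
    Commute.commutator a4 (h1 v v hv hv j' k j k hjk' hjk hjk.symm hjk')
  have a7 : ⁅E e q u i j', E e q v j' k⁆ =
      E e q v j' k * ⁅E e q u i j, E e q v j k⁆ * (E e q v j' k)⁻¹ := by
    rw [a5]; group
  rw [a7, a6.eq]; group

/-- letters can be moved from the first factor to the second -/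
theorem F_shift {u b v : List X} (hu : (u ++ b).length ≤ m) (hv : (b ++ v).length ≤ m)
    {i j j' k : ι}
    (hij : i ≠ j) (hjk : j ≠ k) (hij' : i ≠ j') (hjk' : j' ≠ k) (hik : i ≠ k) (hjj : j ≠ j') :
    ⁅E e q (u ++ b) i j, E e q v j k⁆ = ⁅E e q u i j', E e q (b ++ v) j' k⁆ := by
  have hu1 : u.length ≤ m := by simp at hu; omega
  have hv1 : v.length ≤ m := by simp at hv; omega
  have hb1 : b.length ≤ m := by simp at hv; omega
  have a1 : ⁅E e q u i j', E e q b j' j⁆ = E e q (u ++ b) i j :=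
    h2 u b (by simpa using hu) i j' j hij' hjj.symm hij
  have a2 : ⁅E e q b j' j, E e q v j k⁆ = E e q (b ++ v) j' k :=
    h2 b v (by simpa using hv) j' j k hjj.symm hjk hjk'
  have a3 : Commute (E e q u i j') (E e q v j k) := h1 u v hu1 hv1 i j' j k hij' hjk hjj.symm hik
  have a4 : Commute (E e q (b ++ v) j' k) (E e q (u ++ b) i j) :=
    h1 _ _ hv hu j' k i j hjk' hij hik.symm hjj.symm
  have a5 : Commute (E e q (b ++ v) j' k) ⁅E e q u i j', E e q (b ++ v) j' k⁆ := by
    rw [← F_indep h1 h2 hu1 hv hij hjk hij' hjk' hik hjj]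
    exact Commute.commutator (h1 _ _ hv hu1 j' k i j hjk' hij hik.symm hjj.symm)
      (h1 _ _ hv hv j' k j k hjk' hjk hjk.symm hjk')
  have a6 := comm_assoc' a3 (by rw [a1, a2]; exact a4) (by rw [a2]; exact a5)
  rw [a1, a2] at a6
  exact a6

include he hq hι

/-- decomposition of a word of length at most `m + 1` -/
theorem decomp (hm : 1 ≤ m) {a : X} {w : List X} (hw : w.length ≤ m) {i j k : ι}
    (hij : i ≠ j) (hjk : j ≠ k) (hik : i ≠ k) :
    ⁅E e q [a] i j, E e q w j k⁆ = E e q (a :: w) i k := by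
  have : E e q (a :: w) i k = ⁅E e q [a] i (q i k), E e q w (q i k) k⁆ := by
    conv_lhs => simp only [E]
    rw [E_single he hq a (hq i k).1.symm]
  rw [this]
  by_cases h : j = q i k
  · rw [← h]
  · exact F_indep h1 h2 (by simpa using hm) hw hij hjk (hq i k).1.symm (hq i k).2 hik h

theorem decomp2 (hm : 1 ≤ m) {u v : List X} (hu : u ≠ []) (hv : v ≠ [])
    (huv : u.length + v.length ≤ m + 1) {i j k : ι}
    (hij : i ≠ j) (hjk : j ≠ k) (hik : i ≠ k) :
    ⁅E e q u i j, E e q v j k⁆ = E e q (u ++ v) i k := by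
  obtain ⟨a, u', rfl⟩ := List.exists_cons_of_ne_nil hu
  have hv1 : 1 ≤ v.length := List.length_pos_iff.mpr hv
  obtain ⟨j', h3, h4, h5, -⟩ := hι i j k k
  have hl : (u' ++ v).length ≤ m := by simp at huv ⊢; omega
  have hl' : ([a] ++ u').length ≤ m := by simp at huv ⊢; omega
  have := F_shift (e := e) (q := q) h1 h2 (u := [a]) (b := u') (v := v) hl' hl hij hjk h3.symm h5
    hik h4.symm
  rw [show a :: u' = [a] ++ u' from rfl, this]
  have h6 := decomp he hq hι h1 h2 hm (a := a) (w := u' ++ v) hl h3.symm h5 hik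
  rw [h6]; simp

theorem C1_step (hm : 1 ≤ m) : C1 e q (m + 1) := by
  have key : ∀ n : ℕ, ∀ w w' : List X, w.length + w'.length ≤ n → w.length ≤ m + 1 →
      w'.length ≤ m + 1 → ∀ i j k l, i ≠ j → k ≠ l → j ≠ k → i ≠ l →
      Commute (E e q w i j) (E e q w' k l) := by
    intro n
    induction n with
    | zero =>
      intro w w' hn _ _ i j k l
      exact h1 w w' (by omega) (by omega) i j k l
    | succ n ih =>
      intro w w' hn hw hw' i j k l g1 g2 g3 g4
      by_cases hw2 : 2 ≤ w.length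
      · match w, hw2 with
        | a :: b :: w2, _ =>
          obtain ⟨p, p1, p2, p3, p4⟩ := hι i j k l
          rw [← decomp he hq hι h1 h2 hm (a := a) (w := b :: w2) (by simpa using hw) p1.symm p2 g1]
          refine (Commute.commutator ?_ ?_).symm
          · exact (ih [a] w' (by simp at hn ⊢; omega) (by simp) hw' i p k l p1.symm g2 p3 g4).symm
          · exact (ih (b :: w2) w' (by simp at hn ⊢; omega) (by simp at hw ⊢; omega) hw'
              p j k l p2 g2 g3 p4).symm
      · by_cases hw2' : 2 ≤ w'.length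
        · match w', hw2' with
          | a :: b :: w2, _ =>
            obtain ⟨p, p1, p2, p3, p4⟩ := hι i j k l
            rw [← decomp he hq hι h1 h2 hm (a := a) (w := b :: w2) (by simpa using hw')
              p3.symm p4 g2]
            refine Commute.commutator ?_ ?_
            · exact ih w [a] (by simp at hn ⊢; omega) hw (by simp) i j k p g1 p3.symm g3 p1.symm
            · exact ih w (b :: w2) (by simp at hn ⊢; omega) hw (by simp at hw' ⊢; omega)
                i j p l g1 p4 p2.symm g4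
        · exact h1 w w' (by omega) (by omega) i j k l g1 g2 g3 g4
  intro w w' hw hw' i j k l
  exact key _ w w' le_rfl hw hw' i j k l

theorem C2_step (hm : 1 ≤ m) : C2 e q (m + 1) := by
  have c1 := C1_step he hq hι h1 h2 hm
  intro w w' hw i j k hij hjk hik
  by_cases hw1 : w.length + w'.length ≤ m
  · exact h2 w w' hw1 i j k hij hjk hik
  have hlen : w.length + w'.length = m + 1 := by omega
  by_cases hwn : w = []
  · subst hwn
    match w', hlen with
    | [], hlen => simp at hlen
    | a :: v, hlen =>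
      have hv : v.length ≤ m := by simp at hlen; omega
      obtain ⟨p, p1, p2, p3, -⟩ := hι i j k k
      have d1 := decomp he hq hι h1 h2 hm (a := a) (w := v) hv (i := j) (j := p) (k := k)
        p2.symm p3 hjk
      have d2 := decomp he hq hι h1 h2 hm (a := a) (w := v) hv (i := i) (j := p) (k := k)
        p1.symm p3 hik
      have a1 : ⁅E e q [] i j, E e q [a] j p⁆ = E e q [a] i p := by
        have := h2 [] [a] (by simpa using hm) i j p hij p2.symm p1.symm
        simpa using this
      have a3 : Commute (E e q [] i j) (E e q v p k) :=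
        h1 _ _ (by simp) hv i j p k hij p3 p2.symm hik
      have a4 : Commute (E e q (a :: v) j k) (E e q [a] i p) :=
        c1 _ _ (by simpa using hv) (by simp) j k i p hjk p1.symm hik.symm p2.symm
      have a5 := comm_assoc a3 (by rw [a1, d1]; exact a4)
      rw [a1, d1, d2] at a5
      have a6 : Commute (E e q (a :: v) j k) (E e q (a :: v) i k) :=
        c1 _ _ (by simpa using hv) (by simpa using hv) j k i k hjk hik hik.symm hjk
      rw [List.nil_append]
      have a7 : ⁅E e q [] i j, E e q (a :: v) j k⁆ =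
          E e q (a :: v) j k * E e q (a :: v) i k * (E e q (a :: v) j k)⁻¹ := by
        rw [a5]; group
      rw [a7, a6.eq]; group
  by_cases hwn' : w' = []
  · subst hwn'
    match w, hlen, hwn with
    | a :: v, hlen, _ =>
      have hv : v.length ≤ m := by simp at hlen; omega
      obtain ⟨p, p1, p2, p3, -⟩ := hι i j k k
      have d1 := decomp he hq hι h1 h2 hm (a := a) (w := v) hv (i := i) (j := p) (k := j)
        p1.symm p2 hij
      have d2 := decomp he hq hι h1 h2 hm (a := a) (w := v) hv (i := i) (j := p) (k := k)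
        p1.symm p3 hik
      have a2 : ⁅E e q v p j, E e q [] j k⁆ = E e q v p k := by
        have := h2 v [] (by simpa using hv) p j k p2 hjk p3
        simpa using this
      have a3 : Commute (E e q [a] i p) (E e q [] j k) :=
        h1 _ _ (by simpa using hm) (by simp) i p j k p1.symm hjk p2 hik
      have a4 : Commute (E e q v p k) (E e q (a :: v) i j) :=
        c1 _ _ (by omega) (by simpa using hv) p k i j p3 hij hik.symm p2
      have a5 : Commute (E e q v p k) (E e q (a :: v) i k) :=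
        c1 _ _ (by omega) (by simpa using hv) p k i k p3 hik hik.symm p3
      have a6 := comm_assoc' a3 (by rw [d1, a2]; exact a4) (by rw [a2, d2]; exact a5)
      rw [d1, a2, d2] at a6
      rw [List.append_nil]
      exact a6
  exact decomp2 he hq hι h1 h2 hm hwn hwn' hw hij hjk hik

end Step

theorem C12 (he : Base e) (hq : Pick q) (hι : Big ι) (m : ℕ) :
    C1 e q (m + 1) ∧ C2 e q (m + 1) := by
  induction m with
  | zero => exact ⟨C1_one he hq, C2_one he hq⟩
  | succ m ih => exact ⟨C1_step he hq hι ih.1 ih.2 (by omega), C2_step he hq hι ih.1 ih.2 (by omega)⟩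

theorem E_comm (he : Base e) (hq : Pick q) (hι : Big ι) (w w' : List X) {i j k l : ι}
    (h1 : i ≠ j) (h2 : k ≠ l) (h3 : j ≠ k) (h4 : i ≠ l) :
    Commute (E e q w i j) (E e q w' k l) :=
  (C12 he hq hι (w.length + w'.length)).1 w w' (by omega) (by omega) i j k l h1 h2 h3 h4

theorem E_mul (he : Base e) (hq : Pick q) (hι : Big ι) (w w' : List X) {i j k : ι}
    (h1 : i ≠ j) (h2 : j ≠ k) (h3 : i ≠ k) :
    ⁅E e q w i j, E e q w' j k⁆ = E e q (w ++ w') i k :=
  (C12 he hq hι (w.length + w'.length)).2 w w' (by omega) i j k h1 h2 h3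

theorem E_sq (he : Base e) (hq : Pick q) (hι : Big ι) (w : List X) {i j : ι} (h : i ≠ j) :
    E e q w i j * E e q w i j = 1 := by
  match w with
  | [] => exact he.sq i j none h
  | a :: w =>
    obtain ⟨p, p1, p2, -, -⟩ := hι i j j j
    have := E_mul he hq hι [a] w p1.symm p2 h
    rw [List.singleton_append] at this
    rw [← this]
    apply comm_sq
    · rw [E_single he hq a p1.symm]; exact he.sq i p _ p1.symm
    · rw [this]
      exact E_comm he hq hι _ _ h p1.symm h.symm p1.symm

end Pool.Agent.KS6_39.CZ
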